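import Pool.Agent.U367.DR.Def2

set_option autoImplicit false

namespace Pool.Agent.U367.DR

open AdicCompletion

theorem t_BPL : S_BPL := by
  intro A _ _ I x hx hI
  have hpow : ∀ (n : ℕ) (y : A), y ∈ I ^ n ↔ x ^ n ∣ y := by
    intro n y
    rw [hI, Ideal.span_singleton_pow, Ideal.mem_span_singleton]
  have hsm : ∀ n : ℕ, (I ^ n • ⊤ : Ideal A) = I ^ n := by
    intro n; ext y; simp
  have hev : ∀ (n : ℕ) (f : AdicCauchySequence I A),
      AdicCompletion.evalₐ I n (AdicCompletion.mk I A f) = 0 ↔ x ^ n ∣ f.val n := by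
    intro n f
    rw [AdicCompletion.evalₐ_mk, Ideal.Quotient.eq_zero_iff_mem, hpow]
  have hc : ∀ (f : AdicCauchySequence I A) (n : ℕ), x ^ n ∣ f.val n - f.val (n + 1) := by
    intro f n
    have h := f.property (Nat.le_succ n)
    rw [SModEq.sub_mem, hsm, hpow] at h
    exact h
  constructor
  · intro a ha
    obtain ⟨f, rfl⟩ := AdicCompletion.mk_surjective I A a
    rw [hev] at ha
    have h1 : ∀ n, x ∣ f.val (n + 1) := by
      intro n
      induction n with
      | zero => simpa using ha
      | succ n ih =>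
        have h2 : x ∣ f.val (n + 1) - f.val (n + 2) :=
          dvd_trans (dvd_pow_self x (Nat.succ_ne_zero n)) (hc f (n + 1))
        have h3 := dvd_sub ih h2
        simpa using h3
    choose b hb using h1
    have h4 : ∀ n, b n ≡ b (n + 1) [SMOD (I ^ n • ⊤ : Submodule A A)] := by
      intro n
      rw [SModEq.sub_mem, hsm, hpow]
      have h5 := hc f (n + 1)
      rw [hb n, hb (n + 1), ← mul_sub, pow_succ'] at h5
      exact (mul_dvd_mul_iff_left hx).1 h5
    refine ⟨AdicCompletion.mk I A (AdicCauchySequence.mk I A b h4), ?_⟩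
    apply AdicCompletion.ext_evalₐ
    intro n
    rw [map_mul, AdicCompletion.evalₐ_mk, AdicCompletion.evalₐ_mk, AlgHom.commutes,
      Ideal.Quotient.algebraMap_eq, ← map_mul, Ideal.Quotient.eq, hpow]
    have h6 : (AdicCauchySequence.mk I A b h4).val n = b n := rfl
    rw [h6, ← hb n]
    exact hc f n
  · intro b hb
    obtain ⟨f, rfl⟩ := AdicCompletion.mk_surjective I A b
    apply AdicCompletion.ext_evalₐ
    intro n
    rw [_root_.map_zero, hev]
    have h1 := congrArg (AdicCompletion.evalₐ I (n + 1)) hb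
    rw [map_mul, AdicCompletion.evalₐ_mk, AlgHom.commutes, Ideal.Quotient.algebraMap_eq, ← map_mul,
      _root_.map_zero, Ideal.Quotient.eq_zero_iff_mem, hpow, pow_succ'] at h1
    have h2 : x ^ n ∣ f.val (n + 1) := (mul_dvd_mul_iff_left hx).1 h1
    have h3 := dvd_add (hc f n) h2
    simpa using h3

end Pool.Agent.U367.DR
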