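import Pool.Agent.U367.DR.Def2

/-!
# Project DR: the character is not de Rham (package FINA)
-/

set_option autoImplicit false


namespace Pool.Agent.U367.DR

open Pool.Agent.W292.FM NumberField IsDedekindDomain WittVector TensorProduct
open Pool.Agent.K4H40.ST (IsInert IsFrob)

theorem exists_restrict {F Ω C : Type} [Field F] [Field Ω] [Field C] [Algebra F Ω] [Normal F Ω]
    (j : Ω →+* C) (g : C ≃+* C) (h : ∀ x : F, g (j (algebraMap F Ω x)) = j (algebraMap F Ω x)) :
    ∃ σ : Gal(Ω/F), ∀ y, j (σ y) = g (j y) := by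
  letI : Algebra Ω C := j.toAlgebra
  letI : Algebra F C := (j.comp (algebraMap F Ω)).toAlgebra
  haveI : IsScalarTower F Ω C := IsScalarTower.of_algebraMap_eq fun _ => rfl
  let g' : C →ₐ[F] C := { (g : C →+* C) with commutes' := h }
  exact ⟨AlgHom.restrictNormal' g' Ω, fun y => AlgHom.restrictNormal_commutes g' Ω y⟩

theorem hasRoots (F : Type) [Field F] [NumberField F] (p : ℕ) [Fact p.Prime] (i : ℕ) :
    HasEnoughRootsOfUnity (AlgebraicClosure F) (p ^ i) := by
  haveI : CharZero (AlgebraicClosure F) := charZero_of_injective_algebraMap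
    (algebraMap F (AlgebraicClosure F)).injective
  haveI : NeZero ((p ^ i : ℕ) : AlgebraicClosure F) :=
    ⟨by exact_mod_cast pow_ne_zero i (Fact.out : p.Prime).ne_zero⟩
  infer_instance

theorem cyc_eq {F : Type} [Field F] [NumberField F] {p : ℕ} [Fact p.Prime]
    (j : AlgebraicClosure F →+* PadicAlgCl p) (g : Gal(PadicAlgCl p/ℚ_[p]))
    (σ : Gal(AlgebraicClosure F/F)) (h : ∀ y, j (σ y) = g (j y)) (n m : ℕ)
    (z : AlgebraicClosure F) (hz : IsPrimitiveRoot z (p ^ n)) (hm : g (j z) = j z ^ m) :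
    PadicInt.toZModPow n (cyc F p σ : ℤ_[p]) = m := by
  haveI := hasRoots F p
  have h1 : σ z = z ^ (PadicInt.toZModPow n (cyc F p σ : ℤ_[p])).val :=
    cyclotomicCharacter.spec p (n := n) ((MulSemiringAction.toRingAut Gal(AlgebraicClosure F/F)
      (AlgebraicClosure F)) σ) z hz.pow_eq_one
  have h2 : σ z = z ^ m := j.injective (by rw [h, hm, map_pow])
  rw [h1] at h2
  have hu : IsPrimitiveRoot (Units.mk0 z (hz.ne_zero (pow_ne_zero n (Fact.out : p.Prime).ne_zero)))
      (p ^ n) := IsPrimitiveRoot.coe_units_iff.1 hz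
  have h3 := pow_eq_pow_iff_modEq.1 (show Units.mk0 z (hz.ne_zero
    (pow_ne_zero n (Fact.out : p.Prime).ne_zero)) ^ (PadicInt.toZModPow n (cyc F p σ : ℤ_[p])).val =
    Units.mk0 z (hz.ne_zero (pow_ne_zero n (Fact.out : p.Prime).ne_zero)) ^ m from
      Units.ext (by rw [Units.val_pow_eq_pow_val, Units.val_pow_eq_pow_val]; exact h2))
  rw [← hu.eq_orderOf] at h3
  have h4 := (ZMod.natCast_eq_natCast_iff _ _ _).2 h3
  rwa [ZMod.natCast_zmod_val] at h4

theorem cyc_eq' {F : Type} [Field F] [NumberField F] {p : ℕ} [Fact p.Prime]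
    (j : AlgebraicClosure F →+* PadicAlgCl p) (g : Gal(PadicAlgCl p/ℚ_[p]))
    (σ : Gal(AlgebraicClosure F/F)) (h : ∀ y, j (σ y) = g (j y)) (m : ℕ) (hm : ActsBy p g m) :
    (cyc F p σ : ℤ_[p]) = m := by
  haveI := hasRoots F p
  refine PadicInt.ext_of_toZModPow.1 fun n => ?_
  obtain ⟨z, hz⟩ := HasEnoughRootsOfUnity.exists_primitiveRoot (AlgebraicClosure F) (p ^ n)
  rw [cyc_eq j g σ h n m z hz (hm (j z) n (by rw [← map_pow, hz.pow_eq_one, map_one]))]
  simp

/-- An element of `V ⊗ W` on which `1 ⊗ T` is a scalar, in coordinates. -/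
theorem coord_eq {K V W ι : Type} [DecidableEq ι] [Field K] [AddCommGroup V] [Module K V] [AddCommGroup W]
    [Module K W] (B : Module.Basis ι K V) (T : W →ₗ[K] W) (i : ι) (y : V ⊗[K] W) :
    TensorProduct.equivFinsuppOfBasisLeft B (TensorProduct.map LinearMap.id T y) i =
      T (TensorProduct.equivFinsuppOfBasisLeft B y i) := by
  induction y using TensorProduct.induction_on with
  | zero => simp
  | tmul v w =>
    rw [TensorProduct.map_tmul, LinearMap.id_apply,
      TensorProduct.equivFinsuppOfBasisLeft_apply_tmul_apply,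
      TensorProduct.equivFinsuppOfBasisLeft_apply_tmul_apply, map_smul]
  | add x y hx hy => simp only [map_add, Finsupp.add_apply, hx, hy]

/-- `D_dR` is zero. -/
theorem DdR_eq_bot (hLOC : S_LOC) (F : Type) [Field F] [NumberField F] (p : ℕ) [Fact p.Prime]
    (ψ : ℤ_[p]ˣ →* (PadicAlgCl p)ˣ) (M k : ℕ) (hM : 0 < M)
    (hψ1 : ∀ u : ℤ_[p]ˣ, ((ψ u : (PadicAlgCl p)ˣ) : PadicAlgCl p) ^ (2 * M) =
      algebraMap ℚ_[p] (PadicAlgCl p) ((u : ℤ_[p]) : ℚ_[p]) ^ M)
    (hψ2 : ∀ u : ℤ_[p]ˣ, PadicInt.toZModPow k (u : ℤ_[p]) = 1 →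
      ∃ r : ℚ_[p], ((ψ u : (PadicAlgCl p)ˣ) : PadicAlgCl p) = algebraMap ℚ_[p] (PadicAlgCl p) r)
    (j : AlgebraicClosure F →+* PadicAlgCl p) (F0 : IntermediateField ℚ_[p] (PadicAlgCl p))
    [FiniteDimensional ℚ_[p] F0] (hF0 : ∀ x : F, j (algebraMap F (AlgebraicClosure F) x) ∈ F0)
    (ζ : AlgebraicClosure F) (hζ : IsPrimitiveRoot ζ (p ^ k)) (hζ0 : j ζ ∈ F0) :
    DdR j (rho F ψ) = ⊥ := by
  classical
  -- the restriction of `g`, and the value of the character
  have key : ∀ g : Gal(PadicAlgCl p/ℚ_[p]), (∀ x ∈ F0, g x = x) → ∃ (r : ℚ_[p])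
      (σ : Gal(AlgebraicClosure F/F)), (∀ y, j (σ y) = g (j y)) ∧
      ((ψ (cyc F p σ) : (PadicAlgCl p)ˣ) : PadicAlgCl p) = algebraMap ℚ_[p] (PadicAlgCl p) r := by
    intro g hg
    obtain ⟨σ, hσ⟩ := exists_restrict (F := F) j (g : PadicAlgCl p ≃+* PadicAlgCl p)
      fun x => hg _ (hF0 x)
    have h1 : PadicInt.toZModPow k (cyc F p σ : ℤ_[p]) = 1 := by
      have := cyc_eq j g σ hσ k 1 ζ hζ (by rw [pow_one]; exact hg _ hζ0)
      rwa [Nat.cast_one] at this
    obtain ⟨r, hr⟩ := hψ2 _ h1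
    exact ⟨r, σ, hσ, hr⟩
  let χ : Gal(PadicAlgCl p/ℚ_[p]) → ℚ_[p] := fun g =>
    if h : ∀ x ∈ F0, g x = x then (key g h).choose else 1
  have hχ : ∀ g : Gal(PadicAlgCl p/ℚ_[p]), (∀ x ∈ F0, g x = x) →
      ∃ σ : Gal(AlgebraicClosure F/F), (∀ y, j (σ y) = g (j y)) ∧
      ((ψ (cyc F p σ) : (PadicAlgCl p)ˣ) : PadicAlgCl p) =
        algebraMap ℚ_[p] (PadicAlgCl p) (χ g) := by
    intro g hg
    have h1 : χ g = (key g hg).choose := dif_pos hg
    rw [h1]
    exact (key g hg).choose_spec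
  have hloc := hLOC p F0 χ M hM
    (by
      intro g hg ha
      obtain ⟨σ, hσ, h⟩ := hχ g hg
      have h1 := cyc_eq' j g σ hσ 1 ha
      have h2 : cyc F p σ = 1 := Units.ext (by rw [h1, Nat.cast_one, Units.val_one])
      rw [h2, map_one, Units.val_one] at h
      exact (algebraMap ℚ_[p] (PadicAlgCl p)).injective (by rw [← h, map_one]))
    (by
      intro g hg m ha
      obtain ⟨σ, hσ, h⟩ := hχ g hg
      have h1 := cyc_eq' j g σ hσ m ha
      apply (algebraMap ℚ_[p] (PadicAlgCl p)).injective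
      rw [map_pow, map_pow, ← h, hψ1, h1]
      simp)
  rw [eq_bot_iff]
  intro x hx
  rw [Submodule.mem_bot]
  let B := Module.Basis.ofVectorSpace ℚ_[p] (Fin 1 → PadicAlgCl p)
  apply (TensorProduct.equivFinsuppOfBasisLeft (N := BdR p) B).injective
  rw [map_zero]
  apply Finsupp.ext
  intro i
  rw [Finsupp.zero_apply]
  apply hloc
  intro g hg
  obtain ⟨σ, hσ, h⟩ := hχ g hg
  have h1 : act p (rho F ψ σ : Matrix (Fin 1) (Fin 1) (PadicAlgCl p)) g x = x := hx g σ hσ
  have h2 : ∀ y : (Fin 1 → PadicAlgCl p) ⊗[ℚ_[p]] BdR p,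
      χ g • act p (rho F ψ σ : Matrix (Fin 1) (Fin 1) (PadicAlgCl p)) g y =
        TensorProduct.map LinearMap.id (bdrAlg p (intMap p g)).toLinearMap y := by
    intro y
    induction y using TensorProduct.induction_on with
    | zero => simp
    | tmul v w =>
      have h3 : act p (rho F ψ σ : Matrix (Fin 1) (Fin 1) (PadicAlgCl p)) g (v ⊗ₜ w) =
        Matrix.mulVec (rho F ψ σ : Matrix (Fin 1) (Fin 1) (PadicAlgCl p)) v ⊗ₜ[ℚ_[p]]
          (bdrAlg p (intMap p g) w) := rfl
      rw [h3, TensorProduct.smul_tmul']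
      have h4 : χ g • Matrix.mulVec (rho F ψ σ : Matrix (Fin 1) (Fin 1) (PadicAlgCl p)) v = v := by
        have h5 : (rho F ψ σ : Matrix (Fin 1) (Fin 1) (PadicAlgCl p)) =
            Matrix.scalar (Fin 1) (((ψ (cyc F p σ))⁻¹ : (PadicAlgCl p)ˣ) : PadicAlgCl p) := rfl
        rw [h5]
        funext t
        rw [Matrix.scalar_apply, Pi.smul_apply, Matrix.mulVec_diagonal, Algebra.smul_def, ← h,
          ← mul_assoc, Units.mul_inv, one_mul]
      rw [h4]
      rfl
    | add x y hx hy => rw [map_add, smul_add, hx, hy, map_add]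
  have h6 := h2 x
  rw [h1] at h6
  have h7 := coord_eq B (bdrAlg p (intMap p g)).toLinearMap i x
  rw [← h6, map_smul, Finsupp.smul_apply, Algebra.smul_def] at h7
  exact h7.symm

/-- **Package FINA.** -/
theorem t_FINA : S_FINA := by
  intro hLOC F _ _ p _ ψ M k hM hψ1 hψ2 j
  haveI := hasRoots F p
  obtain ⟨ζ, hζ⟩ := HasEnoughRootsOfUnity.exists_primitiveRoot (AlgebraicClosure F) (p ^ k)
  let b := Module.finBasis ℚ F
  let S : Set (PadicAlgCl p) :=
    Set.range (fun i => j (algebraMap F (AlgebraicClosure F) (b i))) ∪ {j ζ}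
  have hfin : Finite S := ((Set.finite_range _).union (Set.finite_singleton _)).to_subtype
  let F0 : IntermediateField ℚ_[p] (PadicAlgCl p) := IntermediateField.adjoin ℚ_[p] S
  haveI : FiniteDimensional ℚ_[p] F0 :=
    IntermediateField.finiteDimensional_adjoin fun x _ => Algebra.IsIntegral.isIntegral x
  have hζ0 : j ζ ∈ F0 := IntermediateField.subset_adjoin _ _ (Or.inr rfl)
  have hF0 : ∀ x : F, j (algebraMap F (AlgebraicClosure F) x) ∈ F0 := by
    intro x
    rw [← b.sum_repr x, map_sum, map_sum]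
    refine sum_mem fun i _ => ?_
    rw [Algebra.smul_def, map_mul, map_mul]
    refine mul_mem ?_ (IntermediateField.subset_adjoin _ _ (Or.inl ⟨i, rfl⟩))
    have : j (algebraMap F (AlgebraicClosure F) (algebraMap ℚ F (b.repr x i))) =
        ((b.repr x i : ℚ) : PadicAlgCl p) := by
      rw [← RingHom.comp_apply, ← RingHom.comp_apply]
      exact eq_ratCast _ _
    rw [this]
    exact SubfieldClass.ratCast_mem F0 _
  have hbot := DdR_eq_bot hLOC F p ψ M k hM hψ1 hψ2 j F0 hF0 ζ hζ hζ0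
  refine ⟨hbot, ?_⟩
  intro hdR
  unfold IsDeRham at hdR
  rw [hbot, finrank_bot, one_mul] at hdR
  have hle : IntermediateField.adjoin ℚ_[p]
      (Set.range fun x : F => j (algebraMap F (AlgebraicClosure F) x)) ≤ F0 := by
    rw [IntermediateField.adjoin_le_iff]
    rintro _ ⟨x, rfl⟩
    exact hF0 x
  haveI : FiniteDimensional ℚ_[p] (IntermediateField.adjoin ℚ_[p]
      (Set.range fun x : F => j (algebraMap F (AlgebraicClosure F) x))) :=
    FiniteDimensional.of_injective (IntermediateField.inclusion hle).toLinearMap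
      (IntermediateField.inclusion hle).injective
  exact absurd hdR (Module.finrank_pos (R := ℚ_[p])).ne

end Pool.Agent.U367.DR
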