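import Pool.Agent.U367.DR.DefN
import Pool.Agent.U367.DR.FINA

/-!
# Comparison of two forms of the definitions
-/

set_option autoImplicit false

namespace Pool.Agent.U367.DR

open Pool.Agent.W292.FM NumberField IsDedekindDomain TensorProduct
open Pool.Agent.K4H40.ST (IsInert IsFrob)

theorem act_eq {p : ℕ} [Fact p.Prime] {n : ℕ} (M : Matrix (Fin n) (Fin n) (PadicAlgCl p))
    (g : Gal(PadicAlgCl p/ℚ_[p])) (x : (Fin n → PadicAlgCl p) ⊗[ℚ_[p]] BdR p) :
    N.act M g (show N.VB p n from x) = (show N.VB p n from act p M g x) := rfl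

theorem DdR_eq {p : ℕ} [Fact p.Prime] {F Ω : Type} [Field F] [Field Ω] [Algebra F Ω] {n : ℕ}
    (j : Ω →+* PadicAlgCl p) (ρ : Gal(Ω/F) →* GL (Fin n) (PadicAlgCl p)) (h : DdR j ρ = ⊥) :
    N.DdR j ρ = ⊥ := by
  rw [eq_bot_iff]
  intro x hx
  have h1 : ∀ (g : Gal(PadicAlgCl p/ℚ_[p])) (σ : Gal(Ω/F)), (∀ y, j (σ y) = g (j y)) →
      N.act (ρ σ : Matrix (Fin n) (Fin n) (PadicAlgCl p)) g x = x := by
    intro g σ hσ
    rw [N.DdR] at hx
    simp only [Submodule.mem_iInf] at hx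
    exact hx g σ hσ
  have h2 : (show (Fin n → PadicAlgCl p) ⊗[ℚ_[p]] BdR p from x) ∈ DdR j ρ := h1
  rw [h] at h2
  exact h2

end Pool.Agent.U367.DR
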