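import Pool.Agent.U367.DR.Stm

/-!
# Project DR: de Rham representations, and the statements of the second part

`F` is a number field, `Ω` an algebraic closure of `F`, `ρ` a representation of `Gal(Ω/F)` over an algebraic
closure of `ℚ_l`.
-/

set_option autoImplicit false

namespace Pool.Agent.U367.DR

open Pool.Agent.W292.FM NumberField IsDedekindDomain WittVector TensorProduct
open Pool.Agent.K4H40.ST (IsInert IsFrob)

section deRham

variable (p : ℕ) [hp : Fact p.Prime]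

/-- Fontaine's field of `p`-adic periods of `ℂ_p`: Mathlib's `BDeRham 𝓞_ℂ_[p] p`. -/
abbrev BdR (p : ℕ) [Fact p.Prime] : Type := Localization (genSub 𝓞_ℂ_[p] p)

/-- The action of `g` on `V ⊗ B_dR`, where `V = (ℚ_p^alg)^n`; the matrix `M` is the action of `g`
on `V`. -/
noncomputable def act {n : ℕ} (M : Matrix (Fin n) (Fin n) (PadicAlgCl p))
    (g : Gal(PadicAlgCl p/ℚ_[p])) :
    (Fin n → PadicAlgCl p) ⊗[ℚ_[p]] BdR p →ₗ[PadicAlgCl p] (Fin n → PadicAlgCl p) ⊗[ℚ_[p]] BdR p :=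
  TensorProduct.AlgebraTensorModule.map (Matrix.mulVecLin M) (bdrAlg p (intMap p g)).toLinearMap

variable {p} {F Ω : Type} [Field F] [Field Ω] [Algebra F Ω] {n : ℕ}

/-- `D_dR` of the restriction of `ρ` to the decomposition group of the embedding `j` of `Ω` in
`ℚ_p^alg`: the elements of `V ⊗ B_dR` which are fixed by all `g` of the Galois group of `ℚ_p^alg` over the
closure of `j F`; the restriction of `g` to `Ω` is `σ`. It is a vector space over `ℚ_p^alg`. -/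
noncomputable def DdR (j : Ω →+* PadicAlgCl p) (ρ : Gal(Ω/F) →* GL (Fin n) (PadicAlgCl p)) :
    Submodule (PadicAlgCl p) ((Fin n → PadicAlgCl p) ⊗[ℚ_[p]] BdR p) where
  carrier := {x | ∀ (g : Gal(PadicAlgCl p/ℚ_[p])) (σ : Gal(Ω/F)), (∀ y, j (σ y) = g (j y)) →
    act p (ρ σ : Matrix (Fin n) (Fin n) (PadicAlgCl p)) g x = x}
  add_mem' := by
    intro x y hx hy g σ h
    rw [map_add, hx g σ h, hy g σ h]
  zero_mem' := by
    intro g σ _
    rw [map_zero]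
  smul_mem' := by
    intro c x hx g σ h
    rw [map_smul, hx g σ h]

/-- The restriction of `ρ` to the decomposition group of the embedding `j` is de Rham: `D_dR` has the
dimension `n [F_v : ℚ_p]` over `ℚ_p^alg`, where `F_v` is the closure of `j F` in `ℚ_p^alg`. -/
def IsDeRham (j : Ω →+* PadicAlgCl p) (ρ : Gal(Ω/F) →* GL (Fin n) (PadicAlgCl p)) : Prop :=
  Module.finrank (PadicAlgCl p) (DdR j ρ) = n * Module.finrank ℚ_[p]
    (IntermediateField.adjoin ℚ_[p] (Set.range fun x : F => j (algebraMap F Ω x)))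

end deRham

/-- The local representation of `ρ` at `v` is unramified, integral and pure of weight `w`: `ρ` is trivial
on the inertia groups at `v`, and each eigenvalue of each geometric Frobenius element at `v` is an
algebraic integer all of whose complex conjugates have the absolute value `N(v) ^ (w / 2)`. -/
def IsUnramifiedPure {F Ω : Type} [Field F] [NumberField F] [Field Ω] [Algebra F Ω] {p : ℕ}
    [Fact p.Prime] {n : ℕ} (ρ : Gal(Ω/F) →* GL (Fin n) (PadicAlgCl p))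
    (v : HeightOneSpectrum (𝓞 F)) (w : ℤ) : Prop :=
  (∀ σ, IsInert F Ω v σ → ρ σ = 1) ∧
  ∀ σ, IsFrob F Ω v σ → ∀ α : PadicAlgCl p,
    (ρ σ⁻¹ : Matrix (Fin n) (Fin n) (PadicAlgCl p)).charpoly.IsRoot α →
      IsIntegral ℤ α ∧ ∀ z : ℂ, Polynomial.aeval z (minpoly ℚ α) = 0 →
        ‖z‖ = (Ideal.absNorm v.asIdeal : ℝ) ^ ((w : ℝ) / 2)

/-- the final statement -/
def S_FINAL : Prop := ∀ (F : Type) [Field F] [NumberField F] (l : ℕ) [Fact l.Prime],
  ∃ ρ : Gal(AlgebraicClosure F/F) →* GL (Fin 1) (PadicAlgCl l), Continuous ρ ∧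
    (∀ v : HeightOneSpectrum (𝓞 F), (l : 𝓞 F) ∉ v.asIdeal → IsUnramifiedPure ρ v 1) ∧
    ∀ j : AlgebraicClosure F →+* PadicAlgCl l, ¬ IsDeRham j ρ

/-- EPS for all primes `p`. -/
def S_EPS2 : Prop := ∀ (p : ℕ) [Fact p.Prime], ∃ e : TT p,
  fontaineTheta 𝓞_ℂ_[p] p (WittVector.teichmuller p e - 1) = 0 ∧
  (∀ (g : Gal(PadicAlgCl p/ℚ_[p])) (n : ℕ), ActsBy p g n → tiltMap p (intMap p g) e = e ^ n) ∧
  ∀ z : AI p, WittVector.teichmuller p e - 1 ≠
    ((p : AI p) - WittVector.teichmuller p (pflat p)) ^ 2 * z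

/-- PSI for all primes `p`: a continuous character `ψ` of the `p`-adic units with
`ψ(u)^(2M) = u^M`, with values in `ℚ_p` on an open subgroup. -/
def S_PSI3 : Prop := ∀ (p : ℕ) [Fact p.Prime], ∃ (ψ : ℤ_[p]ˣ →* (PadicAlgCl p)ˣ) (M k : ℕ),
  0 < M ∧ Continuous ψ ∧
  (∀ u : ℤ_[p]ˣ, ((ψ u : (PadicAlgCl p)ˣ) : PadicAlgCl p) ^ (2 * M) =
    algebraMap ℚ_[p] (PadicAlgCl p) ((u : ℤ_[p]) : ℚ_[p]) ^ M) ∧
  ∀ u : ℤ_[p]ˣ, PadicInt.toZModPow k (u : ℤ_[p]) = 1 →
    ∃ r : ℚ_[p], ((ψ u : (PadicAlgCl p)ˣ) : PadicAlgCl p) = algebraMap ℚ_[p] (PadicAlgCl p) r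

/-- LOC: no periods in `B_dR` for a character `χ` with `χ(g)^(2M) = cyc(g)^M`, over any finite
extension `F0` of `ℚ_p`. -/
def S_LOC : Prop := ∀ (p : ℕ) [Fact p.Prime] (F0 : IntermediateField ℚ_[p] (PadicAlgCl p))
  [FiniteDimensional ℚ_[p] F0] (χ : Gal(PadicAlgCl p/ℚ_[p]) → ℚ_[p]) (M : ℕ), 0 < M →
  (∀ g : Gal(PadicAlgCl p/ℚ_[p]), (∀ x ∈ F0, g x = x) → ActsBy p g 1 → χ g = 1) →
  (∀ g : Gal(PadicAlgCl p/ℚ_[p]), (∀ x ∈ F0, g x = x) → ∀ m : ℕ, ActsBy p g m →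
    χ g ^ (2 * M) = (m : ℚ_[p]) ^ M) →
  ∀ b : BdR p, (∀ g : Gal(PadicAlgCl p/ℚ_[p]), (∀ x ∈ F0, g x = x) →
    bdrMap p (intMap p g) b = algebraMap ℚ_[p] (BdR p) (χ g) * b) → b = 0

/-- FIN: the assembly. -/
def S_FIN : Prop := S_LOC → S_PSI3 → S_GLB → S_FINAL

end Pool.Agent.U367.DR
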