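import Mathlib
import Pool.Agent.W292.FM.Tilt
import Pool.Agent.K4H40.ST.Statement

/-!
# Project DR: a pure integral l-adic character which is not de Rham

Statements of the packages.  `p` is a prime number.
-/

set_option autoImplicit false

namespace Pool.Agent.U367.DR

open Pool.Agent.W292.FM NumberField IsDedekindDomain WittVector

/-- `g` raises the `p`-power roots of unity to the power `n`. -/
def ActsBy (p : ℕ) [Fact p.Prime] (g : Gal(PadicAlgCl p/ℚ_[p])) (n : ℕ) : Prop :=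
  ∀ (z : PadicAlgCl p) (k : ℕ), z ^ p ^ k = 1 → g z = z ^ n

/-- TRB: the normalised trace is bounded on the cyclotomic tower. -/
def S_TRB : Prop := ∀ (p : ℕ) [Fact p.Prime] (n : ℕ) (z : PadicAlgCl p),
  IsPrimitiveRoot z (p ^ (n + 1)) → ∀ x ∈ IntermediateField.adjoin ℚ_[p] {z},
    ‖Algebra.normalizedTrace ℚ_[p] (PadicAlgCl p) x‖ ≤ p * ‖x‖

/-- GAM: an automorphism raising the roots of unity to the power `1 + p`. -/
def S_GAM : Prop := ∀ (p : ℕ) [Fact p.Prime], ∃ g : Gal(PadicAlgCl p/ℚ_[p]), ActsBy p g (1 + p)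

/-- PSI: the square root of the projection of a unit to `1 + p ℤ_p`. -/
def S_PSI : Prop := ∀ (p : ℕ) [Fact p.Prime], p ≠ 2 → ∃ ψ : ℤ_[p]ˣ →* ℤ_[p]ˣ, Continuous ψ ∧
  ∀ u, ψ u ^ (2 * (p - 1)) = u ^ (p - 1)

/-- GLB: the cyclotomic character at Frobenius and inertia elements. -/
def S_GLB : Prop := ∀ (F : Type) [Field F] [NumberField F] (p : ℕ) [Fact p.Prime]
  (v : HeightOneSpectrum (𝓞 F)), (p : 𝓞 F) ∉ v.asIdeal → ∀ σ : Gal(AlgebraicClosure F/F),
    (Pool.Agent.K4H40.ST.IsInert F (AlgebraicClosure F) v σ →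
      cyclotomicCharacter (AlgebraicClosure F) p (σ : AlgebraicClosure F ≃+* AlgebraicClosure F) = 1) ∧
    (Pool.Agent.K4H40.ST.IsFrob F (AlgebraicClosure F) v σ →
      ((cyclotomicCharacter (AlgebraicClosure F) p
        (σ : AlgebraicClosure F ≃+* AlgebraicClosure F) : ℤ_[p]ˣ) : ℤ_[p]) =
          (Ideal.absNorm v.asIdeal : ℤ_[p]))

/-- KER: the kernel of Fontaine's map `θ` is generated by `p - [p♭]`. -/
def S_KER : Prop := ∀ (p : ℕ) [Fact p.Prime] (x : AI p), fontaineTheta 𝓞_ℂ_[p] p x = 0 →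
  ∃ y : AI p, x = ((p : AI p) - WittVector.teichmuller p (pflat p)) * y

/-- EPS: the element `ε = (1, ζ_p, ζ_{p^2}, …)` of the tilt. -/
def S_EPS : Prop := ∀ (p : ℕ) [Fact p.Prime], p ≠ 2 → ∃ e : TT p,
  fontaineTheta 𝓞_ℂ_[p] p (WittVector.teichmuller p e - 1) = 0 ∧
  (∀ (g : Gal(PadicAlgCl p/ℚ_[p])) (n : ℕ), ActsBy p g n → tiltMap p (intMap p g) e = e ^ n) ∧
  ∀ z : AI p, WittVector.teichmuller p e - 1 ≠
    ((p : AI p) - WittVector.teichmuller p (pflat p)) ^ 2 * z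

end Pool.Agent.U367.DR
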