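import Pool.Agent.U367.DR.Def

/-!
# Project DR: the representation and the last packages
-/

set_option autoImplicit false

namespace Pool.Agent.U367.DR

open Pool.Agent.W292.FM NumberField IsDedekindDomain WittVector TensorProduct
open Pool.Agent.K4H40.ST (IsInert IsFrob)

/-- the cyclotomic character of the absolute Galois group of `F` -/
noncomputable def cyc (F : Type) [Field F] (p : ℕ) [Fact p.Prime] :
    Gal(AlgebraicClosure F/F) →* ℤ_[p]ˣ :=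
  (cyclotomicCharacter (AlgebraicClosure F) p).comp
    (MulSemiringAction.toRingAut Gal(AlgebraicClosure F/F) (AlgebraicClosure F))

/-- units as matrices with one row -/
noncomputable def toGL (p : ℕ) [Fact p.Prime] : (PadicAlgCl p)ˣ →* GL (Fin 1) (PadicAlgCl p) :=
  Units.map (Matrix.scalar (Fin 1) : PadicAlgCl p →+* Matrix (Fin 1) (Fin 1) (PadicAlgCl p)).toMonoidHom

/-- the representation `σ ↦ ψ(cyc σ)⁻¹` -/
noncomputable def rho (F : Type) [Field F] {p : ℕ} [Fact p.Prime] (ψ : ℤ_[p]ˣ →* (PadicAlgCl p)ˣ) :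
    Gal(AlgebraicClosure F/F) →* GL (Fin 1) (PadicAlgCl p) :=
  (toGL p).comp (ψ.comp (cyc F p))⁻¹

/-- FINA: the representation is not de Rham. -/
def S_FINA : Prop := S_LOC → ∀ (F : Type) [Field F] [NumberField F] (p : ℕ) [Fact p.Prime]
  (ψ : ℤ_[p]ˣ →* (PadicAlgCl p)ˣ) (M k : ℕ), 0 < M →
  (∀ u : ℤ_[p]ˣ, ((ψ u : (PadicAlgCl p)ˣ) : PadicAlgCl p) ^ (2 * M) =
    algebraMap ℚ_[p] (PadicAlgCl p) ((u : ℤ_[p]) : ℚ_[p]) ^ M) →
  (∀ u : ℤ_[p]ˣ, PadicInt.toZModPow k (u : ℤ_[p]) = 1 →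
    ∃ r : ℚ_[p], ((ψ u : (PadicAlgCl p)ˣ) : PadicAlgCl p) = algebraMap ℚ_[p] (PadicAlgCl p) r) →
  ∀ j : AlgebraicClosure F →+* PadicAlgCl p, DdR j (rho F ψ) = ⊥ ∧ ¬ IsDeRham j (rho F ψ)

/-- FINB: the representation is integral and pure of weight `1` at the places not above `p`. -/
def S_FINB : Prop := S_GLB → ∀ (F : Type) [Field F] [NumberField F] (p : ℕ) [Fact p.Prime]
  (ψ : ℤ_[p]ˣ →* (PadicAlgCl p)ˣ) (M : ℕ), 0 < M → Continuous ψ →
  (∀ u : ℤ_[p]ˣ, ((ψ u : (PadicAlgCl p)ˣ) : PadicAlgCl p) ^ (2 * M) =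
    algebraMap ℚ_[p] (PadicAlgCl p) ((u : ℤ_[p]) : ℚ_[p]) ^ M) →
  Continuous (rho F ψ) ∧
    ∀ v : HeightOneSpectrum (𝓞 F), (p : 𝓞 F) ∉ v.asIdeal → IsUnramifiedPure (rho F ψ) v 1

/-- BPL: the completion of a domain at a principal ideal. -/
def S_BPL : Prop := ∀ (A : Type) [CommRing A] [IsDomain A] (I : Ideal A) (x : A), x ≠ 0 →
  I = Ideal.span {x} →
  (∀ a : AdicCompletion I A, AdicCompletion.evalₐ I 1 a = 0 →
    ∃ b, a = algebraMap A (AdicCompletion I A) x * b) ∧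
  ∀ b : AdicCompletion I A, algebraMap A (AdicCompletion I A) x * b = 0 → b = 0

end Pool.Agent.U367.DR
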