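import Pool.Agent.W292.FM.Scalars
import Pool.Agent.W292.FM.Galois
import Pool.Agent.K4H40.ST.Statement

/-!
# De Rham representations, and representations which are unramified, integral and pure

`F` is a number field, `Ω` an algebraic closure of `F`, `ρ` a representation of `Gal(Ω/F)` over an algebraic
closure `PadicAlgCl p` of `ℚ_[p]`.
-/

set_option autoImplicit false

namespace Pool.Agent.U367.DR.N

open Pool.Agent.W292.FM NumberField IsDedekindDomain TensorProduct
open Pool.Agent.K4H40.ST (IsInert IsFrob)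

section deRham

/-- Fontaine's field of `p`-adic periods of `ℂ_p`: Mathlib's `BDeRham 𝓞_ℂ_[p] p`. -/
def BdR (p : ℕ) [Fact p.Prime] : Type := Localization (genSub 𝓞_ℂ_[p] p)

/-- The ring structure of the field of periods. -/
@[instance] noncomputable def crBdR (p : ℕ) [Fact p.Prime] : CommRing (BdR p) :=
  (inferInstance : CommRing (Localization (genSub 𝓞_ℂ_[p] p)))

/-- The field of periods as an algebra over `ℚ_[p]`. -/
@[instance] noncomputable def algBdR (p : ℕ) [Fact p.Prime] : Algebra ℚ_[p] (BdR p) :=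
  (inferInstance : Algebra ℚ_[p] (Localization (genSub 𝓞_ℂ_[p] p)))

/-- The action of the Galois group on the field of periods. -/
noncomputable def galB (p : ℕ) [Fact p.Prime] (g : Gal(PadicAlgCl p/ℚ_[p])) :
    BdR p →ₐ[ℚ_[p]] BdR p :=
  bdrAlg p (intMap p g)

/-- The space `V ⊗ B_dR` over `ℚ_p`, where `V = (ℚ_p^alg)^n`. -/
def VB (p : ℕ) [Fact p.Prime] (n : ℕ) : Type := (Fin n → PadicAlgCl p) ⊗[ℚ_[p]] BdR p

/-- The group structure of `V ⊗ B_dR`. -/
@[instance] noncomputable def grVB (p : ℕ) [Fact p.Prime] (n : ℕ) : AddCommGroup (VB p n) :=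
  (inferInstance : AddCommGroup ((Fin n → PadicAlgCl p) ⊗[ℚ_[p]] BdR p))

/-- `V ⊗ B_dR` as a vector space over `ℚ_p^alg`, by the action on `V`. -/
@[instance] noncomputable def modVB (p : ℕ) [Fact p.Prime] (n : ℕ) : Module (PadicAlgCl p) (VB p n) :=
  (inferInstance : Module (PadicAlgCl p) ((Fin n → PadicAlgCl p) ⊗[ℚ_[p]] BdR p))

variable {p : ℕ} [hp : Fact p.Prime]

/-- The action of `g` on `V ⊗ B_dR`, where `V = (ℚ_p^alg)^n`; the matrix `M` is the action of `g`
on `V`. -/
noncomputable def act {n : ℕ} (M : Matrix (Fin n) (Fin n) (PadicAlgCl p))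
    (g : Gal(PadicAlgCl p/ℚ_[p])) : VB p n →ₗ[PadicAlgCl p] VB p n :=
  TensorProduct.AlgebraTensorModule.map (Matrix.mulVecLin M) (galB p g).toLinearMap

variable {F Ω : Type} [Field F] [Field Ω] [Algebra F Ω] {n : ℕ}

/-- `D_dR` of the restriction of `ρ` to the decomposition group of the embedding `j` of `Ω` in
`ℚ_p^alg`: the elements of `V ⊗ B_dR` which are fixed by all `g` of the Galois group of `ℚ_p^alg` over the
closure of `j F`; the restriction of `g` to `Ω` is `σ`. It is a vector space over `ℚ_p^alg`. -/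
noncomputable def DdR (j : Ω →+* PadicAlgCl p) (ρ : Gal(Ω/F) →* GL (Fin n) (PadicAlgCl p)) :
    Submodule (PadicAlgCl p) (VB p n) :=
  ⨅ (g : Gal(PadicAlgCl p/ℚ_[p])) (σ : Gal(Ω/F)) (_ : ∀ y, j (σ y) = g (j y)),
    LinearMap.eqLocus (act (ρ σ : Matrix (Fin n) (Fin n) (PadicAlgCl p)) g) LinearMap.id

/-- The restriction of `ρ` to the decomposition group of the embedding `j` is de Rham: `D_dR` has the
dimension `n [F_v : ℚ_p]` over `ℚ_p^alg`, where `F_v` is the closure of `j F` in `ℚ_p^alg`. -/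
def IsDeRham (j : Ω →+* PadicAlgCl p) (ρ : Gal(Ω/F) →* GL (Fin n) (PadicAlgCl p)) : Prop :=
  Module.finrank (PadicAlgCl p) (DdR j ρ) = n * Module.finrank ℚ_[p]
    (IntermediateField.adjoin ℚ_[p] (Set.range fun x : F => j (algebraMap F Ω x)))

end deRham

/-- The local representation of `ρ` at `v` is unramified, integral and pure of weight `w`: `ρ` is trivial
on the inertia groups at `v`, and each eigenvalue of each geometric Frobenius element at `v` is an
algebraic integer all of whose complex conjugates have the absolute value `N(v) ^ (w / 2)`. -/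
def IsUnramifiedPure {F Ω : Type} [Field F] [NumberField F] [Field Ω] [Algebra F Ω] {p : ℕ}
    [Fact p.Prime] {n : ℕ} (ρ : Gal(Ω/F) →* GL (Fin n) (PadicAlgCl p))
    (v : HeightOneSpectrum (𝓞 F)) (w : ℤ) : Prop :=
  (∀ σ, IsInert F Ω v σ → ρ σ = 1) ∧
  ∀ σ, IsFrob F Ω v σ → ∀ α : PadicAlgCl p,
    (ρ σ⁻¹ : Matrix (Fin n) (Fin n) (PadicAlgCl p)).charpoly.IsRoot α →
      IsIntegral ℤ α ∧ ∀ z : ℂ, Polynomial.aeval z (minpoly ℚ α) = 0 →
        ‖z‖ = (Ideal.absNorm v.asIdeal : ℝ) ^ ((w : ℝ) / 2)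

end Pool.Agent.U367.DR.N
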