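import Pool.Agent.U367.DR.Plus

/-!
No periods in `B_dR` for characters whose weight is not an integer.
-/

set_option autoImplicit false
set_option linter.unusedSectionVars false

namespace Pool.Agent.U367.DR

open Pool.Agent.W292.FM WittVector
open Pool.Agent.U491.DR (xi theta_xi)

variable {p : ℕ} [hp : Fact p.Prime]

/-- the canonical map `ℤ_p → O` -/
theorem theta_zpMap (x : ℤ_[p]) :
    ((fontaineTheta 𝓞_ℂ_[p] p (zpMap 𝓞_ℂ_[p] p x) : 𝓞_ℂ_[p]) : ℂ_[p]) =
      algebraMap ℚ_[p] ℂ_[p] (x : ℚ_[p]) := by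
  set f : ℤ_[p] →+* 𝓞_ℂ_[p] := (fontaineTheta 𝓞_ℂ_[p] p).comp (zpMap 𝓞_ℂ_[p] p) with hf
  set F : ℤ_[p] →+* ℂ_[p] := ((𝓞_ℂ_[p]).subtype : 𝓞_ℂ_[p] →+* ℂ_[p]).comp f with hF
  set G : ℤ_[p] →+* ℂ_[p] := (algebraMap ℚ_[p] ℂ_[p]).comp (PadicInt.Coe.ringHom (p := p)) with hG
  have hFn : ∀ y, ‖F y‖ ≤ 1 := fun y => norm_int_le p (f y)
  have hGn : ∀ y, ‖G y‖ ≤ 1 := fun y => by
    have : G y = algebraMap ℚ_[p] ℂ_[p] (y : ℚ_[p]) := rfl
    rw [this, norm_algebraMap']
    exact y.2
  have key : ∀ n : ℕ, ‖F x - G x‖ ≤ ‖(p : ℂ_[p])‖ ^ n := by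
    intro n
    obtain ⟨y, hy⟩ : ∃ y : ℤ_[p], x = (x.appr n : ℤ_[p]) + (p : ℤ_[p]) ^ n * y := by
      have := PadicInt.appr_spec n x
      rw [Ideal.mem_span_singleton] at this
      obtain ⟨y, hy⟩ := this
      exact ⟨y, by rw [← hy]; ring⟩
    have h1 : F x - G x = (p : ℂ_[p]) ^ n * (F y - G y) := by
      conv_lhs => rw [hy]
      simp only [map_add, map_mul, map_pow, map_natCast]
      ring
    rw [h1, norm_mul, norm_pow]
    have h2 : ‖F y - G y‖ ≤ 1 := (nsub _ _).trans (max_le (hFn y) (hGn y))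
    have h3 : (0 : ℝ) ≤ ‖(p : ℂ_[p])‖ ^ n := by positivity
    nlinarith
  have h0 : ‖F x - G x‖ ≤ 0 :=
    ge_of_tendsto (tendsto_norm_p_pow p) (Filter.Eventually.of_forall key)
  have h1 : F x - G x = 0 := norm_le_zero_iff.1 h0
  exact sub_eq_zero.1 h1

theorem Th_qpMap (c : ℚ_[p]) : Th p (qpMap 𝓞_ℂ_[p] p c) = algebraMap ℚ_[p] ℂ_[p] c := by
  have key : (Th p).comp (qpMap 𝓞_ℂ_[p] p) = algebraMap ℚ_[p] ℂ_[p] := by
    refine IsLocalization.ringHom_ext (nonZeroDivisors ℤ_[p]) ?_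
    ext x
    simp only [RingHom.comp_apply]
    rw [qpMap_coe, Th_algebraMap, theta_zpMap]
    rfl
  exact congrArg (fun f : ℚ_[p] →+* ℂ_[p] => f c) key

theorem exists_pow_fix_field (F0 : IntermediateField ℚ_[p] (PadicAlgCl p))
    [FiniteDimensional ℚ_[p] F0] (g : Gal(PadicAlgCl p/ℚ_[p])) :
    ∃ r : ℕ, 0 < r ∧ ∀ x ∈ F0, (g ^ r) x = x := by
  classical
  obtain ⟨s, hs⟩ := (Module.finite_def.1 (inferInstance : Module.Finite ℚ_[p] F0))
  choose N hN hNx using fun x : PadicAlgCl p => exists_pow_fix g x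
  refine ⟨∏ y ∈ s, N (y : PadicAlgCl p), Finset.prod_pos fun y _ => hN _, ?_⟩
  set r := ∏ y ∈ s, N (y : PadicAlgCl p) with hr
  have hgen : ∀ y ∈ s, (g ^ r) (y : PadicAlgCl p) = y := by
    intro y hy
    obtain ⟨k, hk⟩ : N (y : PadicAlgCl p) ∣ r := Finset.dvd_prod_of_mem _ hy
    rw [hk, pow_mul]
    have h1 : ∀ k : ℕ, ((g ^ N (y : PadicAlgCl p)) ^ k) (y : PadicAlgCl p) = y := by
      intro k
      induction k with
      | zero => simp
      | succ k ih => rw [pow_succ, AlgEquiv.mul_apply, hNx, ih]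
    exact h1 k
  intro x hx
  have hx' : (⟨x, hx⟩ : F0) ∈ Submodule.span ℚ_[p] (s : Set F0) := by
    rw [hs]; trivial
  have : ∀ y : F0, y ∈ Submodule.span ℚ_[p] (s : Set F0) → (g ^ r) (y : PadicAlgCl p) = y := by
    intro y hy
    induction hy using Submodule.span_induction with
    | mem y hy => exact hgen y hy
    | zero => simp
    | add y z _ _ hy hz =>
      rw [IntermediateField.coe_add, map_add, hy, hz]
    | smul c y _ hy =>
      rw [IntermediateField.coe_smul, Algebra.smul_def, map_mul, AlgEquiv.commutes, hy]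
  exact this _ hx'

theorem actsBy_pow {g : Gal(PadicAlgCl p/ℚ_[p])} {n : ℕ} (h : ActsBy p g n) (r : ℕ) :
    ActsBy p (g ^ r) (n ^ r) := by
  induction r with
  | zero => intro z k _; simp
  | succ r ih =>
    intro z k hz
    have h1 : (z ^ n) ^ p ^ k = 1 := by rw [← pow_mul, mul_comm, pow_mul, hz, one_pow]
    rw [pow_succ, AlgEquiv.mul_apply, h z k hz, ih (z ^ n) k h1, ← pow_mul, pow_succ, mul_comm]

/-- the data of the uniformiser `[ε] - 1`: `(g ξ / ξ)(θ) g(Y) = n Y`. -/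
theorem exists_Y (hK : S_KER) (hE : S_EPS2) : ∃ Y : ℂ_[p], Y ≠ 0 ∧
    ∀ (g : Gal(PadicAlgCl p/ℚ_[p])) (n : ℕ), ActsBy p g n → ∀ η : AA p,
      locMap p (intMap p g) (algebraMap (AI p) (AA p) (xi p)) =
        algebraMap (AI p) (AA p) (xi p) * η →
      Th p η * cpMap p g Y = n * Y := by
  obtain ⟨e, he0, heg, hez⟩ := hE p
  obtain ⟨y, hy⟩ := hK p _ he0
  change _ = xi p * y at hy
  refine ⟨Th p (algebraMap (AI p) (AA p) y), ?_, ?_⟩
  · intro h
    rw [Th_algebraMap] at h
    have h1 : fontaineTheta 𝓞_ℂ_[p] p y = 0 := Subtype.ext h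
    obtain ⟨z, hz⟩ := hK p y h1
    change y = xi p * z at hz
    apply hez z
    rw [hy, hz]
    change _ = xi p ^ 2 * z
    ring
  · intro g n hg η hη
    set X : AI p := xi p with hX
    have h1 : WittVector.map (tiltMap p (intMap p g)) (WittVector.teichmuller p e - 1) =
        (WittVector.teichmuller p e) ^ n - 1 := by
      rw [map_sub, map_one, WittVector.map_teichmuller, heg g n hg, map_pow]
    -- expansion of the power
    obtain ⟨r, hr⟩ : ∃ r : AI p, (WittVector.teichmuller p e) ^ n - 1 =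
        n * (WittVector.teichmuller p e - 1) + (WittVector.teichmuller p e - 1) ^ 2 * r := by
      set t := WittVector.teichmuller p e with ht
      clear_value t
      clear h1 hg
      induction n with
      | zero => exact ⟨0, by simp⟩
      | succ n ih =>
        obtain ⟨r, hr⟩ := ih
        refine ⟨r * t + n, ?_⟩
        have : t ^ (n + 1) - 1 = (t ^ n - 1) * t + (t - 1) := by ring
        rw [this, hr]
        push_cast
        ring
    rw [hr, hy] at h1
    have h2 := congrArg (algebraMap (AI p) (AA p)) h1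
    rw [← locMap_algebraMap, map_mul (algebraMap (AI p) (AA p)), map_mul (locMap p (intMap p g)), hη]
      at h2
    simp only [map_add, map_mul, map_natCast, map_pow] at h2
    have h3 : algebraMap (AI p) (AA p) X * (η * locMap p (intMap p g) (algebraMap (AI p) (AA p) y)) =
        algebraMap (AI p) (AA p) X * (n * algebraMap (AI p) (AA p) y +
          algebraMap (AI p) (AA p) X * (algebraMap (AI p) (AA p) y ^ 2 *
            algebraMap (AI p) (AA p) r)) := by
      rw [← mul_assoc, h2]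
      ring
    have h4 := mul_left_cancel₀ (xi_ne' p) h3
    have h5 := congrArg (Th p) h4
    have h6 : Th p (algebraMap (AI p) (AA p) X) = 0 := by
      rw [Th_algebraMap, hX, theta_xi]
      rfl
    rw [map_mul, Th_locMap, map_add, map_mul, map_mul, h6, zero_mul, add_zero, map_natCast] at h5
    exact h5

theorem loc (hT : S_TRB) (hG : S_GAM) (hK : S_KER) (hE : S_EPS2) (hB : S_BPL) : S_LOC := by
  intro p hp F0 hF0 χ M hM hχ1 hχm b hb
  by_contra hb0
  have hdom : IsDomain (PP p) := isDomain_PP hK hB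
  obtain ⟨⟨a, s⟩, has⟩ := IsLocalization.surj (genSub 𝓞_ℂ_[p] p) b
  simp only at has
  have hinj : Function.Injective (algebraMap (PP p) (BdR p)) :=
    IsLocalization.injective _ (genSub_le hK hB)
  have hs0 : (s : PP p) ≠ 0 := mem_nonZeroDivisors_iff_ne_zero.1 (genSub_le hK hB s.2)
  have ha0 : a ≠ 0 := by
    rintro rfl
    rw [map_zero] at has
    have h1 : IsUnit (algebraMap (PP p) (BdR p) (s : PP p)) := IsLocalization.map_units _ s
    exact hb0 ((h1.mul_left_eq_zero).1 has)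
  obtain ⟨k, u, hu, hU⟩ := lead hK hB ha0
  obtain ⟨m, w, hw, hW⟩ := lead hK hB hs0
  obtain ⟨Y, hY, hYg⟩ := exists_Y (p := p) hK hE
  -- the equation in `B_dR^+`
  have hmain : ∀ g : Gal(PadicAlgCl p/ℚ_[p]), (∀ x ∈ F0, g x = x) → ∀ n : ℕ, ActsBy p g n →
      n ≠ 0 → cpMap p g (ThP p u / ThP p w * Y ^ m / Y ^ k) =
        algebraMap ℚ_[p] ℂ_[p] (χ g * (n : ℚ_[p]) ^ m / (n : ℚ_[p]) ^ k) *
          (ThP p u / ThP p w * Y ^ m / Y ^ k) := by
    intro g hg n hn hn0
    have h1 := hb g hg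
    have h2 := congrArg (bdrMap p (intMap p g)) has
    rw [map_mul, bdrMap_algebraMap, bdrMap_algebraMap, h1, algebraMap_bdr] at h2
    have h3 : toPlus p (qpMap 𝓞_ℂ_[p] p (χ g)) * a * plusMap p (intMap p g) s =
        plusMap p (intMap p g) a * s := by
      apply hinj
      rw [map_mul, map_mul, ← has, map_mul, ← h2]
      ring
    obtain ⟨η, hη⟩ : ∃ η : AA p, locMap p (intMap p g) (algebraMap (AI p) (AA p) (xi p)) =
        algebraMap (AI p) (AA p) (xi p) * η := by
      have h4 : locMap p (intMap p g) (algebraMap (AI p) (AA p) (xi p)) ∈ kerT 𝓞_ℂ_[p] p := by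
        apply locMap_mem_ker
        change _ ∈ kerT 𝓞_ℂ_[p] p
        rw [kerT_eq p hK]
        exact Ideal.mem_span_singleton_self _
      rw [kerT_eq p hK] at h4
      exact Ideal.mem_span_singleton.1 h4
    have hX : plusMap p (intMap p g) (XX p) = XX p * toPlus p η := by
      rw [XX, plusMap_toPlus, hη, map_mul]
    rw [hu, hw, map_mul, map_mul, map_pow, map_pow, hX, mul_pow, mul_pow] at h3
    have h5 : XX p ^ (k + m) * (toPlus p (qpMap 𝓞_ℂ_[p] p (χ g)) * u * (toPlus p η) ^ m *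
        plusMap p (intMap p g) w) = XX p ^ (k + m) * ((toPlus p η) ^ k * plusMap p (intMap p g) u * w) := by
      rw [pow_add]
      linear_combination h3
    have h6 : toPlus p (qpMap 𝓞_ℂ_[p] p (χ g)) * u * (toPlus p η) ^ m * plusMap p (intMap p g) w -
        (toPlus p η) ^ k * plusMap p (intMap p g) u * w = 0 := by
      apply XX_pow_mul hK hB (k + m)
      rw [mul_sub, h5, sub_self]
    have h7 := congrArg (ThP p) (sub_eq_zero.1 h6)
    simp only [map_mul, map_pow, ThP_toPlus, ThP_plusMap, Th_qpMap] at h7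
    have h8 := hYg g n hn η hη
    set U := ThP p u with hUdef
    set W := ThP p w with hWdef
    set t := Th p η with htdef
    have hnC : (n : ℂ_[p]) ≠ 0 := by exact_mod_cast hn0
    have ht : t ≠ 0 := by
      intro h0
      rw [h0, zero_mul] at h8
      exact mul_ne_zero hnC hY h8.symm
    have hgY : cpMap p g Y ≠ 0 := by
      rw [Ne, map_eq_zero_iff _ (cpMap p g).injective]
      exact hY
    have hgW : cpMap p g W ≠ 0 := by
      rw [Ne, map_eq_zero_iff _ (cpMap p g).injective]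
      exact hW
    have h9 : cpMap p g Y = n * Y / t := by
      field_simp
      linear_combination h8
    rw [map_div₀, map_mul, map_div₀, map_pow, map_pow, h9]
    have h10 : cpMap p g U / cpMap p g W = algebraMap ℚ_[p] ℂ_[p] (χ g) * U * t ^ m / (t ^ k * W) := by
      rw [div_eq_div_iff hgW (mul_ne_zero (pow_ne_zero _ ht) hW)]
      linear_combination -h7
    rw [h10]
    simp only [map_div₀, map_mul, map_pow, map_natCast, div_pow, mul_pow]
    field_simp
  -- Tate's theorem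
  obtain ⟨γ, hγ⟩ := hG p
  obtain ⟨r, hr, hrF⟩ := exists_pow_fix_field F0 γ
  have hγr := actsBy_pow hγ r
  have hD : ThP p u / ThP p w * Y ^ m / Y ^ k ≠ 0 :=
    div_ne_zero (mul_ne_zero (div_ne_zero hU hW) (pow_ne_zero _ hY)) (pow_ne_zero _ hY)
  have hN1 : 1 < (1 + p) ^ r := Nat.one_lt_pow hr.ne' (by have := hp.out.pos; omega)
  have hN0 : (1 + p) ^ r ≠ 0 := by omega
  refine tate hT F0 hD ?_ (γ ^ r) hrF _ ?_ (hmain (γ ^ r) hrF ((1 + p) ^ r) hγr hN0)
  · intro h hh hhF
    have h1 := hmain h hhF 1 hh one_ne_zero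
    rw [h1, hχ1 h hhF hh]
    simp
  · intro N hN hc
    set n := (1 + p) ^ r with hn
    have hχ := hχm (γ ^ r) hrF n hγr
    have hnQ : (n : ℚ_[p]) ≠ 0 := by exact_mod_cast hN0
    have h1 : (χ (γ ^ r) * (n : ℚ_[p]) ^ m / (n : ℚ_[p]) ^ k) ^ (N * (2 * M)) = 1 := by
      rw [pow_mul, hc, one_pow]
    have h2 : (χ (γ ^ r) * (n : ℚ_[p]) ^ m / (n : ℚ_[p]) ^ k) ^ (N * (2 * M)) =
        (n : ℚ_[p]) ^ (M * N + 2 * M * N * m) / (n : ℚ_[p]) ^ (2 * M * N * k) := by
      rw [div_pow, mul_pow, mul_comm N (2 * M), pow_mul (χ (γ ^ r)), hχ, ← pow_mul, ← pow_mul,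
        ← pow_mul, ← pow_add]
      congr 2 <;> ring
    rw [h2, div_eq_one_iff_eq (pow_ne_zero _ hnQ)] at h1
    have h3 : n ^ (M * N + 2 * M * N * m) = n ^ (2 * M * N * k) := by exact_mod_cast h1
    have h4 := Nat.pow_right_injective hN1 h3
    have h5 : 0 < M * N := Nat.mul_pos hM hN
    have h6 : M * N * (1 + 2 * m) = M * N * (2 * k) := by linarith
    have h7 := Nat.eq_of_mul_eq_mul_left h5 h6
    omega

end Pool.Agent.U367.DR
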