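import Pool.Agent.U367.DR.Tat
import Pool.Agent.U367.DR.Def2
import Pool.Agent.U491.DR.KER

/-!
The ring `B_dR^+`: Fontaine's map to `ℂ_p`, leading terms.
-/

set_option autoImplicit false
set_option linter.unusedSectionVars false

namespace Pool.Agent.U367.DR

open Pool.Agent.W292.FM WittVector
open Pool.Agent.U491.DR (xi theta_xi)

variable (p : ℕ) [hp : Fact p.Prime]

/-- The ring `A_inf[1/p]`. -/
abbrev AA : Type := Localization.Away (p : AI p)

theorem p_ne_AI : (p : AI p) ≠ 0 := WittVector.p_nonzero p (TT p)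

theorem powers_le_AI : Submonoid.powers (p : AI p) ≤ nonZeroDivisors (AI p) :=
  powers_le_nonZeroDivisors_of_noZeroDivisors (p_ne_AI p)

instance isDomain_AA : IsDomain (AA p) :=
  IsLocalization.isDomain_localization (powers_le_AI p)

theorem algebraMap_AA_inj : Function.Injective (algebraMap (AI p) (AA p)) :=
  IsLocalization.injective _ (powers_le_AI p)

theorem p_ne_O : (p : 𝓞_ℂ_[p]) ≠ 0 := by
  intro h
  have := congrArg (fun x : 𝓞_ℂ_[p] => (x : ℂ_[p])) h
  exact p_ne_zero p (by simpa using this)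

theorem isUnit_p_C : IsUnit (((𝓞_ℂ_[p]).subtype : 𝓞_ℂ_[p] →+* ℂ_[p]) (p : 𝓞_ℂ_[p])) := by
  rw [map_natCast]
  exact (p_ne_zero p).isUnit

/-- The map `O[1/p] → ℂ_p`. -/
noncomputable def iota : Localization.Away (p : 𝓞_ℂ_[p]) →+* ℂ_[p] :=
  IsLocalization.Away.lift (p : 𝓞_ℂ_[p]) (isUnit_p_C p)

theorem iota_algebraMap (x : 𝓞_ℂ_[p]) : iota p (algebraMap _ _ x) = (x : ℂ_[p]) :=
  IsLocalization.Away.lift_eq _ _ _

theorem iota_inj : Function.Injective (iota p) := by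
  rw [injective_iff_map_eq_zero]
  intro y hy
  obtain ⟨⟨a, s⟩, h⟩ := IsLocalization.surj (Submonoid.powers (p : 𝓞_ℂ_[p])) y
  obtain ⟨n, hn⟩ := s.2
  have h1 := congrArg (iota p) h
  rw [map_mul, hy, zero_mul, iota_algebraMap] at h1
  have h2 : a = 0 := Subtype.ext h1.symm
  simp only at h
  rw [h2, map_zero] at h
  have h3 : IsUnit (algebraMap 𝓞_ℂ_[p] (Localization.Away (p : 𝓞_ℂ_[p])) (s : 𝓞_ℂ_[p])) :=
    IsLocalization.map_units _ s
  exact (h3.mul_left_eq_zero).1 h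

/-- Fontaine's map `A_inf[1/p] → ℂ_p`. -/
noncomputable def Th : AA p →+* ℂ_[p] := (iota p).comp (fontaineThetaInvertP 𝓞_ℂ_[p] p)

theorem Th_algebraMap (x : AI p) :
    Th p (algebraMap _ _ x) = ((fontaineTheta 𝓞_ℂ_[p] p x : 𝓞_ℂ_[p]) : ℂ_[p]) := by
  rw [Th, RingHom.comp_apply, thetaInvertP_algebraMap, iota_algebraMap]

theorem Th_eq_zero_iff (x : AA p) : Th p x = 0 ↔ x ∈ kerT 𝓞_ℂ_[p] p := by
  rw [RingHom.mem_ker, Th, RingHom.comp_apply, map_eq_zero_iff _ (iota_inj p)]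

theorem iota_locRMap (g : Gal(PadicAlgCl p/ℚ_[p])) (y : Localization.Away (p : 𝓞_ℂ_[p])) :
    iota p (locRMap p (intMap p g) y) = cpMap p g (iota p y) := by
  have key : (iota p).comp (locRMap p (intMap p g)) =
      ((cpMap p g : ℂ_[p] ≃+* ℂ_[p]) : ℂ_[p] →+* ℂ_[p]).comp (iota p) := by
    refine IsLocalization.ringHom_ext (Submonoid.powers (p : 𝓞_ℂ_[p])) ?_
    ext x
    simp only [RingHom.comp_apply]
    rw [locRMap_algebraMap, iota_algebraMap, iota_algebraMap, coe_intMap]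
    rfl
  exact congrArg (fun f : Localization.Away (p : 𝓞_ℂ_[p]) →+* ℂ_[p] => f y) key

theorem Th_locMap (g : Gal(PadicAlgCl p/ℚ_[p])) (x : AA p) :
    Th p (locMap p (intMap p g) x) = cpMap p g (Th p x) := by
  rw [Th, RingHom.comp_apply, RingHom.comp_apply, thetaInvertP_locMap, iota_locRMap]

theorem kerT_eq (hK : S_KER) :
    kerT 𝓞_ℂ_[p] p = Ideal.span {algebraMap (AI p) (AA p) (xi p)} := by
  apply le_antisymm
  · intro x hx
    rw [← Th_eq_zero_iff] at hx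
    obtain ⟨⟨a, s⟩, h⟩ := IsLocalization.surj (Submonoid.powers (p : AI p)) x
    simp only at h
    have h1 := congrArg (Th p) h
    rw [map_mul, hx, zero_mul, Th_algebraMap] at h1
    have h2 : fontaineTheta 𝓞_ℂ_[p] p a = 0 := Subtype.ext h1.symm
    obtain ⟨y, hy⟩ := hK p a h2
    have h3 : IsUnit (algebraMap (AI p) (AA p) (s : AI p)) := IsLocalization.map_units _ s
    obtain ⟨u, hu⟩ := h3
    rw [← hu, hy, map_mul] at h
    rw [Ideal.mem_span_singleton]
    refine ⟨algebraMap (AI p) (AA p) y * ↑u⁻¹, ?_⟩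
    have h4 := congrArg (fun z => z * (↑u⁻¹ : AA p)) h
    simp only [mul_assoc, Units.mul_inv, mul_one] at h4
    exact h4
  · rw [Ideal.span_singleton_le_iff_mem, ← Th_eq_zero_iff, Th_algebraMap, theta_xi]
    rfl

theorem xi_ne : xi p ≠ 0 := by
  intro h
  have e : ∀ z : AI p, z.coeff 0 = WittVector.constantCoeff z := fun z => rfl
  have h1 : (xi p).coeff 0 = (0 : AI p).coeff 0 := by rw [h]
  rw [e, e, map_zero, xi, map_sub, map_natCast, ← e, WittVector.teichmuller_coeff_zero,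
    CharP.cast_eq_zero, zero_sub, neg_eq_zero] at h1
  have h2 : PreTilt.coeff 1 (pflat p) = 0 := by rw [h1, map_zero]
  rw [pflat, coeff_mkT, mk_eq_zero_iff] at h2
  have h3 := norm_pseq_pow (p := p) 1
  rw [pow_one] at h3
  have h4 := norm_pseq_pos (p := p) 1
  have h5 := norm_p_lt_one p
  have h6 := norm_p_pos p
  have hp2 : 2 ≤ p := hp.out.two_le
  have h7 : ‖(pseq p 1 : ℂ_[p])‖ < 1 := h2.trans_lt h5
  have h8 : ‖(pseq p 1 : ℂ_[p])‖ ^ p ≤ ‖(pseq p 1 : ℂ_[p])‖ ^ 2 :=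
    pow_le_pow_of_le_one h4.le h7.le hp2
  rw [h3] at h8
  nlinarith

theorem xi_ne' : algebraMap (AI p) (AA p) (xi p) ≠ 0 := by
  rw [Ne, map_eq_zero_iff _ (algebraMap_AA_inj p)]
  exact xi_ne p

/-- The ring `B_dR^+`. -/
abbrev PP : Type := BDeRhamPlus 𝓞_ℂ_[p] p

/-- Fontaine's map `B_dR^+ → ℂ_p`. -/
noncomputable def ThP : PP p →+* ℂ_[p] :=
  (Ideal.Quotient.lift (kerT 𝓞_ℂ_[p] p ^ 1) (Th p) (fun a ha => by
    rw [pow_one] at ha
    exact (Th_eq_zero_iff p a).2 ha)).comp (evalP p 1)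

theorem ThP_eq {a : PP p} {x : AA p} (h : evalP p 1 a = Ideal.Quotient.mk _ x) :
    ThP p a = Th p x := by
  rw [ThP, RingHom.comp_apply, h, Ideal.Quotient.lift_mk]

theorem ThP_toPlus (x : AA p) : ThP p (toPlus p x) = Th p x :=
  ThP_eq p (evalP_toPlus p 1 x)

theorem ThP_eq_zero {a : PP p} (h : ThP p a = 0) : evalP p 1 a = 0 := by
  obtain ⟨x, hx⟩ := Ideal.Quotient.mk_surjective (evalP p 1 a)
  rw [ThP_eq p hx.symm, Th_eq_zero_iff] at h
  rw [← hx, Ideal.Quotient.eq_zero_iff_mem, pow_one]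
  exact h

theorem ThP_plusMap (g : Gal(PadicAlgCl p/ℚ_[p])) (a : PP p) :
    ThP p (plusMap p (intMap p g) a) = cpMap p g (ThP p a) := by
  obtain ⟨x, hx⟩ := Ideal.Quotient.mk_surjective (evalP p 1 a)
  have h1 : evalP p 1 (plusMap p (intMap p g) a) =
      Ideal.Quotient.mk _ (locMap p (intMap p g) x) := by
    rw [evalP_plusMap, ← hx]
    rfl
  rw [ThP_eq p h1, Th_locMap, ThP_eq p hx.symm]

/-- The uniformiser of `B_dR^+`. -/
noncomputable def XX : PP p := toPlus p (algebraMap (AI p) (AA p) (xi p))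

variable {p}

theorem dvd_of_ThP (hK : S_KER) (hB : S_BPL) {a : PP p} (h : ThP p a = 0) :
    ∃ b, a = XX p * b :=
  (hB (AA p) (kerT 𝓞_ℂ_[p] p) (algebraMap (AI p) (AA p) (xi p)) (xi_ne' p) (kerT_eq p hK)).1 a
    (ThP_eq_zero p h)

theorem XX_mul (hK : S_KER) (hB : S_BPL) {b : PP p} (h : XX p * b = 0) : b = 0 :=
  (hB (AA p) (kerT 𝓞_ℂ_[p] p) (algebraMap (AI p) (AA p) (xi p)) (xi_ne' p) (kerT_eq p hK)).2 b h

theorem XX_pow_mul (hK : S_KER) (hB : S_BPL) {b : PP p} (k : ℕ) (h : XX p ^ k * b = 0) :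
    b = 0 := by
  induction k with
  | zero => simpa using h
  | succ k ih =>
    apply ih
    apply XX_mul hK hB
    rw [← mul_assoc, ← pow_succ']
    exact h

theorem lead_aux (hK : S_KER) (hB : S_BPL) (n : ℕ) : ∀ a : PP p, evalP p n a ≠ 0 →
    ∃ (k : ℕ) (b : PP p), a = XX p ^ k * b ∧ ThP p b ≠ 0 := by
  induction n with
  | zero =>
    intro a ha
    exfalso
    apply ha
    obtain ⟨x, hx⟩ := Ideal.Quotient.mk_surjective (evalP p 0 a)
    rw [← hx, Ideal.Quotient.eq_zero_iff_mem, pow_zero, Ideal.one_eq_top]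
    trivial
  | succ n ih =>
    intro a ha
    by_cases h : ThP p a = 0
    · obtain ⟨b, rfl⟩ := dvd_of_ThP hK hB h
      have hb : evalP p n b ≠ 0 := by
        intro hb
        apply ha
        obtain ⟨β, hβ⟩ := Ideal.Quotient.mk_surjective (evalP p (n + 1) b)
        have h1 := factorPow_evalP p (Nat.le_add_right n 1) b
        rw [hb, ← hβ] at h1
        have h2 : β ∈ kerT 𝓞_ℂ_[p] p ^ n := by
          rw [← Ideal.Quotient.eq_zero_iff_mem]
          exact h1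
        rw [map_mul, ← hβ, XX, evalP_toPlus, ← map_mul, Ideal.Quotient.eq_zero_iff_mem, pow_succ']
        refine Ideal.mul_mem_mul ?_ h2
        rw [kerT_eq p hK]
        exact Ideal.mem_span_singleton_self _
      obtain ⟨k, c, rfl, hc⟩ := ih b hb
      exact ⟨k + 1, c, by rw [pow_succ']; ring, hc⟩
    · exact ⟨0, a, by simp, h⟩

theorem lead (hK : S_KER) (hB : S_BPL) {a : PP p} (ha : a ≠ 0) :
    ∃ (k : ℕ) (b : PP p), a = XX p ^ k * b ∧ ThP p b ≠ 0 := by
  have : ∃ n, evalP p n a ≠ 0 := by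
    by_contra h
    push Not at h
    apply ha
    refine evalP_ext p fun n => ?_
    rw [h n, map_zero]
  obtain ⟨n, hn⟩ := this
  exact lead_aux hK hB n a hn

theorem ne_zero_of_ThP {a : PP p} (h : ThP p a ≠ 0) : a ≠ 0 := by
  rintro rfl
  exact h (map_zero _)

theorem isDomain_PP (hK : S_KER) (hB : S_BPL) : IsDomain (PP p) := by
  have h1 : Nontrivial (PP p) := ⟨1, 0, ne_zero_of_ThP (by rw [map_one]; exact one_ne_zero)⟩
  have h2 : NoZeroDivisors (PP p) := ⟨by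
    intro a b hab
    by_contra h
    push Not at h
    obtain ⟨k, u, rfl, hu⟩ := lead hK hB h.1
    obtain ⟨m, w, rfl, hw⟩ := lead hK hB h.2
    have h3 : XX p ^ (k + m) * (u * w) = 0 := by
      rw [← hab]; ring
    have h4 := XX_pow_mul hK hB _ h3
    have h5 := congrArg (ThP p) h4
    rw [map_mul, map_zero] at h5
    rcases mul_eq_zero.1 h5 with h6 | h6
    · exact hu h6
    · exact hw h6⟩
  exact NoZeroDivisors.to_isDomain _

theorem genSub_le (hK : S_KER) (hB : S_BPL) : genSub 𝓞_ℂ_[p] p ≤ nonZeroDivisors (PP p) := by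
  have := isDomain_PP (p := p) hK hB
  rw [Submonoid.closure_le]
  rintro _ ⟨a, ha, rfl⟩
  change toPlus p a ∈ nonZeroDivisors (PP p)
  rw [mem_nonZeroDivisors_iff_ne_zero]
  intro h0
  have ha' : kerT 𝓞_ℂ_[p] p = Ideal.span {a} := ha
  have h1 : algebraMap (AI p) (AA p) (xi p) ∈ Ideal.span {a} := by
    rw [← ha', kerT_eq p hK]
    exact Ideal.mem_span_singleton_self _
  obtain ⟨c, hc⟩ := Ideal.mem_span_singleton.1 h1
  have h2 : XX p = 0 := by
    rw [XX, hc, map_mul, h0, zero_mul]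
  have h3 : (1 : PP p) = 0 := XX_mul hK hB (by rw [h2, zero_mul])
  exact one_ne_zero h3

end Pool.Agent.U367.DR
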