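import Pool.Agent.U367.DR.Stm

/-!
Tate's theorem for characters of the cyclotomic tower, in the form needed here.
-/

set_option autoImplicit false

namespace Pool.Agent.U367.DR

open Pool.Agent.W292.FM

variable {p : ℕ} [hp : Fact p.Prime]

theorem nsub {E : Type*} [SeminormedAddCommGroup E] [IsUltrametricDist E] (x y : E) :
    ‖x - y‖ ≤ max ‖x‖ ‖y‖ := by
  rw [sub_eq_add_neg]
  simpa using IsUltrametricDist.norm_add_le_max x (-y)

theorem neq {E : Type*} [SeminormedAddCommGroup E] [IsUltrametricDist E] {x y : E}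
    (h : ‖y‖ < ‖x‖) : ‖x - y‖ = ‖x‖ := by
  have h1 : ‖x‖ ≠ ‖-y‖ := by rw [norm_neg]; exact h.ne'
  rw [sub_eq_add_neg, IsUltrametricDist.norm_add_eq_max_of_norm_ne_norm h1, norm_neg,
    max_eq_left h.le]

theorem coe_smul' (r : ℚ_[p]) (x : PadicAlgCl p) :
    ((r • x : PadicAlgCl p) : ℂ_[p]) = algebraMap ℚ_[p] ℂ_[p] r * (x : ℂ_[p]) := by
  rw [PadicComplex.coe_eq, PadicComplex.coe_eq, Algebra.smul_def, map_mul,
    ← IsScalarTower.algebraMap_apply]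

/-- The cyclotomic tower. -/
noncomputable def Kinf (p : ℕ) [Fact p.Prime] : IntermediateField ℚ_[p] (PadicAlgCl p) :=
  IntermediateField.adjoin ℚ_[p] {z | ∃ k : ℕ, z ^ p ^ k = 1}

theorem exists_level (T : Finset (PadicAlgCl p))
    (hT : ∀ z ∈ T, ∃ k : ℕ, z ^ p ^ k = 1) : ∃ k : ℕ, ∀ z ∈ T, z ^ p ^ k = 1 := by
  classical
  induction T using Finset.induction_on with
  | empty => exact ⟨0, by simp⟩
  | insert a T ha ih =>
    obtain ⟨k, hk⟩ := ih (fun z hz => hT z (Finset.mem_insert_of_mem hz))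
    obtain ⟨m, hm⟩ := hT a (Finset.mem_insert_self _ _)
    refine ⟨k + m, fun z hz => ?_⟩
    rcases Finset.mem_insert.1 hz with rfl | hz
    · rw [add_comm, pow_add, pow_mul, hm, one_pow]
    · rw [pow_add, pow_mul, hk z hz, one_pow]

theorem mem_level {x : PadicAlgCl p} (hx : x ∈ Kinf p) :
    ∃ (n : ℕ) (z : PadicAlgCl p), IsPrimitiveRoot z (p ^ (n + 1)) ∧
      x ∈ IntermediateField.adjoin ℚ_[p] {z} := by
  obtain ⟨T, hT, hx⟩ := IntermediateField.exists_finset_of_mem_adjoin hx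
  obtain ⟨k, hk⟩ := exists_level T (fun z hz => hT hz)
  have : NeZero ((p ^ (k + 1) : ℕ) : PadicAlgCl p) := by
    refine ⟨?_⟩
    exact_mod_cast pow_ne_zero (k + 1) hp.out.ne_zero
  obtain ⟨z, hz⟩ := HasEnoughRootsOfUnity.exists_primitiveRoot (PadicAlgCl p) (p ^ (k + 1))
  refine ⟨k, z, hz, ?_⟩
  refine IntermediateField.adjoin_le_iff.2 ?_ hx
  intro w hw
  have hw1 : w ^ p ^ (k + 1) = 1 := by
    rw [pow_succ, pow_mul, hk w hw, one_pow]
  have : NeZero (p ^ (k + 1)) := ⟨pow_ne_zero (k + 1) hp.out.ne_zero⟩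
  obtain ⟨i, _, rfl⟩ := hz.eq_pow_of_pow_eq_one hw1
  exact pow_mem (IntermediateField.mem_adjoin_simple_self _ z) i

/-- bound of the normalised trace on the tower -/
theorem trace_le (hT : S_TRB) {x : PadicAlgCl p} (hx : x ∈ Kinf p) :
    ‖Algebra.normalizedTrace ℚ_[p] (PadicAlgCl p) x‖ ≤ p * ‖x‖ := by
  obtain ⟨n, z, hz, hx⟩ := mem_level hx
  exact hT p n z hz x hx

theorem trace_gal (g : Gal(PadicAlgCl p/ℚ_[p])) (x : PadicAlgCl p) :
    Algebra.normalizedTrace ℚ_[p] (PadicAlgCl p) (g x) =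
      Algebra.normalizedTrace ℚ_[p] (PadicAlgCl p) x :=
  Algebra.normalizedTrace_map (F := ℚ_[p]) (K := PadicAlgCl p) (E := PadicAlgCl p)
    (g : PadicAlgCl p →ₐ[ℚ_[p]] PadicAlgCl p) x

theorem gal_mem_Kinf (g : Gal(PadicAlgCl p/ℚ_[p])) {x : PadicAlgCl p} (hx : x ∈ Kinf p) :
    g x ∈ Kinf p := by
  have h1 : (Kinf p).map (g : PadicAlgCl p →ₐ[ℚ_[p]] PadicAlgCl p) ≤ Kinf p := by
    rw [Kinf, IntermediateField.adjoin_map, IntermediateField.adjoin_le_iff]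
    rintro _ ⟨z, ⟨k, hz⟩, rfl⟩
    refine IntermediateField.subset_adjoin _ _ ⟨k, ?_⟩
    rw [← map_pow, hz, map_one]
  exact h1 ⟨x, hx, rfl⟩


/-- The compositum of the cyclotomic tower with a finite extension. -/
noncomputable def Linf (F0 : IntermediateField ℚ_[p] (PadicAlgCl p)) :
    IntermediateField ℚ_[p] (PadicAlgCl p) := Kinf p ⊔ F0

theorem gal_mem_Linf (F0 : IntermediateField ℚ_[p] (PadicAlgCl p))
    (g : Gal(PadicAlgCl p/ℚ_[p])) (hg : ∀ x ∈ F0, g x = x) {x : PadicAlgCl p} (hx : x ∈ Linf F0) :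
    g x ∈ Linf F0 := by
  have h1 : (Linf F0).map (g : PadicAlgCl p →ₐ[ℚ_[p]] PadicAlgCl p) ≤ Linf F0 := by
    rw [Linf, IntermediateField.map_sup]
    refine sup_le ?_ ?_
    · rintro _ ⟨y, hy, rfl⟩
      exact (le_sup_left : Kinf p ≤ Kinf p ⊔ F0) (gal_mem_Kinf g hy)
    · rintro _ ⟨y, hy, rfl⟩
      refine (le_sup_right : F0 ≤ Kinf p ⊔ F0) ?_
      have : (g : PadicAlgCl p →ₐ[ℚ_[p]] PadicAlgCl p) y = y := hg y hy
      change (g : PadicAlgCl p →ₐ[ℚ_[p]] PadicAlgCl p) y ∈ F0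
      rw [this]
      exact hy
  exact h1 ⟨x, hx, rfl⟩

theorem inv_le_norm_natCast {n : ℕ} (hn : n ≠ 0) : (n : ℝ)⁻¹ ≤ ‖(n : ℚ_[p])‖ := by
  have hn' : (n : ℚ_[p]) ≠ 0 := by exact_mod_cast hn
  rw [Padic.norm_eq_zpow_neg_valuation hn', Padic.valuation_natCast, zpow_neg, zpow_natCast]
  have h1 : p ^ padicValNat p n ≤ n := Nat.le_of_dvd (Nat.pos_of_ne_zero hn) pow_padicValNat_dvd
  have h2 : (0 : ℝ) < (p : ℝ) ^ padicValNat p n := by
    have : (0 : ℝ) < p := by exact_mod_cast hp.out.pos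
    positivity
  apply inv_anti₀ h2
  exact_mod_cast h1

theorem norm_trace_le (K : IntermediateField ℚ_[p] (PadicAlgCl p)) (x : PadicAlgCl p) :
    ‖((Algebra.normalizedTrace K (PadicAlgCl p) x : K) : PadicAlgCl p)‖ ≤
      (minpoly K x).natDegree * ‖x‖ := by
  have hint : IsIntegral K x := Algebra.IsIntegral.isIntegral x
  have hn : (minpoly K x).natDegree ≠ 0 := (minpoly.natDegree_pos hint).ne'
  rw [Algebra.normalizedTrace_minpoly]
  have h1 : (((((minpoly K x).natDegree : K)⁻¹ • -(minpoly K x).nextCoeff : K)) : PadicAlgCl p) =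
      (((minpoly K x).natDegree : PadicAlgCl p))⁻¹ *
        -((minpoly K x).map (algebraMap K (PadicAlgCl p))).nextCoeff := by
    rw [Polynomial.nextCoeff_map (algebraMap K (PadicAlgCl p)).injective]
    rw [smul_eq_mul]
    push_cast
    rfl
  rw [h1, norm_mul, norm_inv, norm_neg]
  have hsp : ((minpoly K x).map (algebraMap K (PadicAlgCl p))).Splits :=
    IsAlgClosed.splits _
  rw [hsp.nextCoeff_eq_neg_sum_roots_of_monic ((minpoly.monic hint).map _), norm_neg]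
  have h2 : ‖((minpoly K x).map (algebraMap K (PadicAlgCl p))).roots.sum‖ ≤ ‖x‖ := by
    refine Multiset.sum_induction (fun y => ‖y‖ ≤ ‖x‖)
      ((minpoly K x).map (algebraMap K (PadicAlgCl p))).roots ?_ (by simp) ?_
    · intro a b ha hb
      exact (IsUltrametricDist.norm_add_le_max a b).trans (max_le ha hb)
    · intro y hy
      rw [Polynomial.mem_roots (Polynomial.map_ne_zero (minpoly.ne_zero hint)),
        Polynomial.IsRoot.def, Polynomial.eval_map, ← Polynomial.aeval_def] at hy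
      obtain ⟨σ, hσ⟩ := minpoly.exists_algEquiv_of_root (Algebra.IsAlgebraic.isAlgebraic x) hy
      have := norm_gal p (σ.restrictScalars ℚ_[p]) y
      rw [← hσ]
      exact this.ge
  have h3 : ‖(((minpoly K x).natDegree : ℕ) : PadicAlgCl p)‖⁻¹ ≤ (minpoly K x).natDegree := by
    rw [norm_natCast_alg]
    have h4 := inv_le_norm_natCast (p := p) hn
    have h5 : (0 : ℝ) < (minpoly K x).natDegree := by exact_mod_cast Nat.pos_of_ne_zero hn
    rw [inv_le_comm₀ (lt_of_lt_of_le (by positivity) h4) h5]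
    exact h4
  exact mul_le_mul h3 h2 (norm_nonneg _) (Nat.cast_nonneg _)

/-- bound of the normalised trace on the compositum of the tower with a finite extension -/
theorem trace_le' (hT : S_TRB) (F0 : IntermediateField ℚ_[p] (PadicAlgCl p))
    [FiniteDimensional ℚ_[p] F0] : ∃ C : ℝ, 1 ≤ C ∧ ∀ x ∈ Linf F0,
      ‖Algebra.normalizedTrace ℚ_[p] (PadicAlgCl p) x‖ ≤ C * ‖x‖ := by
  have hp1 : (1 : ℝ) < p := one_lt_p p
  have hr : Module.rank (Kinf p) (IntermediateField.adjoin (Kinf p) (F0 : Set (PadicAlgCl p))) <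
      Cardinal.aleph0 :=
    (IntermediateField.adjoin_rank_le_of_isAlgebraic_left (Kinf p) F0).trans_lt
      (Module.rank_lt_aleph0 ℚ_[p] F0)
  have : Module.Finite (Kinf p) (IntermediateField.adjoin (Kinf p) (F0 : Set (PadicAlgCl p))) :=
    Module.rank_lt_aleph0_iff.1 hr
  set m := Module.finrank (Kinf p) (IntermediateField.adjoin (Kinf p) (F0 : Set (PadicAlgCl p)))
    with hm
  have hm1 : 1 ≤ m := Module.finrank_pos
  have hm1' : (1 : ℝ) ≤ m := by exact_mod_cast hm1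
  refine ⟨p * m, by nlinarith, fun x hx => ?_⟩
  have hx' : x ∈ IntermediateField.adjoin (Kinf p) (F0 : Set (PadicAlgCl p)) := by
    rw [← IntermediateField.mem_restrictScalars (K := ℚ_[p]),
      IntermediateField.restrictScalars_adjoin_eq_sup, IntermediateField.adjoin_self]
    exact hx
  have hdeg : (minpoly (Kinf p) x).natDegree ≤ m := by
    have h1 := minpoly.natDegree_le (A := Kinf p)
      (⟨x, hx'⟩ : IntermediateField.adjoin (Kinf p) (F0 : Set (PadicAlgCl p)))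
    rw [IntermediateField.minpoly_eq] at h1
    exact h1
  rw [← Algebra.normalizedTrace_trans_apply ℚ_[p] (Kinf p) (PadicAlgCl p) x,
    ← Algebra.normalizedTrace_intermediateField ℚ_[p] (PadicAlgCl p)]
  refine (trace_le hT (Subtype.property _)).trans ?_
  have h2 := norm_trace_le (Kinf p) x
  have h3 : ((minpoly (Kinf p) x).natDegree : ℝ) ≤ m := by exact_mod_cast hdeg
  calc (p : ℝ) * ‖((Algebra.normalizedTrace (Kinf p) (PadicAlgCl p) x : Kinf p) : PadicAlgCl p)‖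
      ≤ p * ((minpoly (Kinf p) x).natDegree * ‖x‖) := by gcongr
    _ ≤ p * (m * ‖x‖) := by gcongr
    _ = p * m * ‖x‖ := by ring

/-- the completed elements fixed by the kernel of the cyclotomic character are limits of elements of the
cyclotomic tower -/
theorem exists_near (F0 : IntermediateField ℚ_[p] (PadicAlgCl p)) (d : ℂ_[p])
    (hH : ∀ h : Gal(PadicAlgCl p/ℚ_[p]), ActsBy p h 1 → (∀ x ∈ F0, h x = x) → cpMap p h d = d)
    {δ : ℝ} (hδ : 0 < δ) : ∃ a ∈ Linf F0, ‖d - (a : ℂ_[p])‖ ≤ δ := by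
  have hp1 : (1 : ℝ) < p := one_lt_p p
  have hp2 : (0 : ℝ) < (p : ℝ) ^ 2 := by positivity
  have hd : d ∈ closure (Set.range ((↑) : PadicAlgCl p → ℂ_[p])) :=
    UniformSpace.Completion.denseRange_coe d
  rw [Metric.mem_closure_range_iff] at hd
  obtain ⟨α, hα⟩ := hd (δ / (p : ℝ) ^ 2) (by positivity)
  rw [dist_eq_norm] at hα
  obtain ⟨a, ha, haα⟩ := ax p (Linf F0) α (δ / (p : ℝ) ^ 2) (by positivity) (fun σ hσ => by
    have h1 : ActsBy p σ 1 := fun z k hz => by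
      rw [pow_one]
      exact hσ z ((le_sup_left : Kinf p ≤ Kinf p ⊔ F0)
        (IntermediateField.subset_adjoin _ _ ⟨k, hz⟩))
    have h2 := hH σ h1 (fun x hx => hσ x ((le_sup_right : F0 ≤ Kinf p ⊔ F0) hx))
    have h3 : ((σ α - α : PadicAlgCl p) : ℂ_[p]) = (d - (α : ℂ_[p])) - cpMap p σ (d - (α : ℂ_[p])) := by
      rw [map_sub, h2, cpMap_coe]
      push_cast
      ring
    rw [← PadicComplex.norm_extends, h3]
    refine (nsub _ _).trans ?_
    rw [norm_cpMap, max_self]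
    exact hα.le)
  refine ⟨a, ha, ?_⟩
  have h4 : d - (a : ℂ_[p]) = (d - (α : ℂ_[p])) + ((α - a : PadicAlgCl p) : ℂ_[p]) := by
    push_cast
    ring
  rw [h4]
  refine (IsUltrametricDist.norm_add_le_max _ _).trans (max_le ?_ ?_)
  · refine hα.le.trans (div_le_self hδ.le ?_)
    nlinarith
  · rw [PadicComplex.norm_extends]
    refine haα.trans (le_of_eq ?_)
    field_simp

theorem exists_pow_fix (g : Gal(PadicAlgCl p/ℚ_[p])) (x : PadicAlgCl p) :
    ∃ N : ℕ, 0 < N ∧ (g ^ N) x = x := by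
  classical
  have hx : IsIntegral ℚ_[p] x := Algebra.IsIntegral.isIntegral x
  have hne : minpoly ℚ_[p] x ≠ 0 := minpoly.ne_zero hx
  set S : Finset (PadicAlgCl p) := ((minpoly ℚ_[p] x).map (algebraMap ℚ_[p] (PadicAlgCl p))).roots.toFinset
    with hS
  have hmem : ∀ n : ℕ, (g ^ n) x ∈ S := by
    intro n
    rw [hS, Multiset.mem_toFinset, Polynomial.mem_roots (Polynomial.map_ne_zero hne),
      Polynomial.IsRoot.def, Polynomial.eval_map, ← Polynomial.aeval_def]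
    have : Polynomial.aeval ((g ^ n) x) (minpoly ℚ_[p] x) = (g ^ n) (Polynomial.aeval x (minpoly ℚ_[p] x)) :=
      Polynomial.aeval_algHom_apply ((g ^ n : Gal(PadicAlgCl p/ℚ_[p])) : PadicAlgCl p →ₐ[ℚ_[p]] PadicAlgCl p) x _
    rw [this, minpoly.aeval, map_zero]
  obtain ⟨i, -, j, -, hij, h⟩ := Set.infinite_univ.exists_ne_map_eq_of_mapsTo
    (f := fun n : ℕ => (g ^ n) x) (t := (S : Set (PadicAlgCl p))) (fun n _ => hmem n) S.finite_toSet
  wlog hlt : i < j generalizing i j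
  · exact this j i (Ne.symm hij) h.symm (lt_of_le_of_ne (not_lt.1 hlt) (Ne.symm hij))
  refine ⟨j - i, by omega, ?_⟩
  have h1 : g ^ j = g ^ i * g ^ (j - i) := by rw [← pow_add]; congr 1; omega

  rw [h1, AlgEquiv.mul_apply] at h
  exact ((g ^ i).injective h).symm

theorem cpMap_pow_eigen {γ : Gal(PadicAlgCl p/ℚ_[p])} {c : ℚ_[p]} {d : ℂ_[p]}
    (hγ : cpMap p γ d = algebraMap ℚ_[p] ℂ_[p] c * d) (N : ℕ) :
    cpMap p (γ ^ N) d = algebraMap ℚ_[p] ℂ_[p] (c ^ N) * d := by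
  induction N with
  | zero => simp [cpMap_one]
  | succ N ih =>
    rw [pow_succ, cpMap_mul, hγ, map_mul, cpMap_algebraMap, ih, pow_succ, map_mul]
    ring

theorem trace_one : Algebra.normalizedTrace ℚ_[p] (PadicAlgCl p) 1 = 1 := by
  have := Algebra.normalizedTrace_algebraMap_apply_eq_self (F := ℚ_[p]) (K := PadicAlgCl p) 1
  rwa [map_one] at this

/-- **Tate's theorem**, in the form needed here: an element of `ℂ_p` fixed by the kernel of the
cyclotomic character is not an eigenvector of any automorphism, for an eigenvalue in `ℚ_p` which is not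
a root of unity. -/
theorem tate (hT : S_TRB) (F0 : IntermediateField ℚ_[p] (PadicAlgCl p))
    [FiniteDimensional ℚ_[p] F0] {d : ℂ_[p]} (hd : d ≠ 0)
    (hH : ∀ h : Gal(PadicAlgCl p/ℚ_[p]), ActsBy p h 1 → (∀ x ∈ F0, h x = x) → cpMap p h d = d)
    (γ : Gal(PadicAlgCl p/ℚ_[p])) (hγF : ∀ x ∈ F0, γ x = x)
    (c : ℚ_[p]) (hc : ∀ N : ℕ, 0 < N → c ^ N ≠ 1) :
    cpMap p γ d ≠ algebraMap ℚ_[p] ℂ_[p] c * d := by
  intro hγ
  obtain ⟨C, hC1, hC⟩ := trace_le' hT F0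
  have hp1 : (1 : ℝ) < p := one_lt_p p
  have hp0 : (0 : ℝ) < 2 * C := by linarith
  have hp1' : (1 : ℝ) < 2 * C := by linarith
  have hd0 : 0 < ‖d‖ := norm_pos_iff.2 hd
  -- the eigenvalue has absolute value one
  have hnc : ‖c‖ = 1 := by
    have h1 := congrArg norm hγ
    rw [norm_cpMap, norm_mul, norm_algebraMap'] at h1
    have h2 : (‖c‖ - 1) * ‖d‖ = 0 := by linarith
    rcases mul_eq_zero.1 h2 with h3 | h3
    · linarith
    · exact absurd h3 hd0.ne'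
  -- first approximation
  obtain ⟨a, ha, had⟩ := exists_near F0 d hH (δ := ‖d‖ * ((2 * C)⁻¹) ^ 2) (by positivity)
  have hinv : ((2 * C)⁻¹) ^ 2 < 1 := by
    have : (2 * C)⁻¹ < 1 := inv_lt_one_of_one_lt₀ hp1'
    have h0 : 0 < (2 * C)⁻¹ := by positivity
    nlinarith
  have hna : ‖a‖ = ‖d‖ := by
    rw [← PadicComplex.norm_extends]
    have h1 : ‖d - (a : ℂ_[p])‖ < ‖d‖ := had.trans_lt (by nlinarith)
    have h2 : (a : ℂ_[p]) = d - (d - (a : ℂ_[p])) := by ring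
    rw [h2, neq h1]
  have ha0 : a ≠ 0 := by
    rintro rfl
    rw [norm_zero] at hna
    exact hd0.ne hna
  obtain ⟨N, hN, hNa⟩ := exists_pow_fix γ a⁻¹
  have hγN : ∀ x ∈ F0, (γ ^ N) x = x := by
    intro x hx
    clear hNa hN
    induction N with
    | zero => simp
    | succ N ih => rw [pow_succ, AlgEquiv.mul_apply, hγF x hx, ih]
  have hcN : 0 < ‖c ^ N - 1‖ := norm_pos_iff.2 (sub_ne_zero.2 (hc N hN))
  -- second approximation
  obtain ⟨b, hb, hbd⟩ := exists_near F0 d hH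
    (δ := ‖d‖ * min (((2 * C)⁻¹) ^ 2) (((2 * C)⁻¹) ^ 2 * ‖c ^ N - 1‖)) (by positivity)
  set T := Algebra.normalizedTrace ℚ_[p] (PadicAlgCl p) with hTdef
  have hbd1 : ‖d - (b : ℂ_[p])‖ ≤ ‖d‖ * ((2 * C)⁻¹) ^ 2 :=
    hbd.trans (mul_le_mul_of_nonneg_left (min_le_left _ _) hd0.le)
  have hbd2 : ‖d - (b : ℂ_[p])‖ ≤ ‖d‖ * (((2 * C)⁻¹) ^ 2 * ‖c ^ N - 1‖) :=
    hbd.trans (mul_le_mul_of_nonneg_left (min_le_right _ _) hd0.le)
  have hainv : a⁻¹ ∈ Linf F0 := inv_mem ha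
  have hba : b * a⁻¹ ∈ Linf F0 := mul_mem hb hainv
  -- the trace of `b / a` is close to one
  have h1 : ‖T (b * a⁻¹) - 1‖ ≤ (2 * C)⁻¹ := by
    have h2 : T (b * a⁻¹) - 1 = T ((b - a) * a⁻¹) := by
      rw [sub_mul, mul_inv_cancel₀ ha0, map_sub, hTdef, trace_one]
    rw [h2]
    refine (hC _ (mul_mem (sub_mem hb ha) hainv)).trans ?_
    rw [norm_mul, norm_inv, hna]
    have h3 : ‖b - a‖ ≤ ‖d‖ * ((2 * C)⁻¹) ^ 2 := by
      rw [← PadicComplex.norm_extends]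
      have h4 : ((b - a : PadicAlgCl p) : ℂ_[p]) = (d - (a : ℂ_[p])) - (d - (b : ℂ_[p])) := by
        push_cast
        ring
      rw [h4]
      exact (nsub _ _).trans (max_le had hbd1)
    calc C * (‖b - a‖ * ‖d‖⁻¹) ≤ C * ((‖d‖ * ((2 * C)⁻¹) ^ 2) * ‖d‖⁻¹) := by gcongr
      _ ≤ (2 * C)⁻¹ := by
        rw [show C * ((‖d‖ * ((2 * C)⁻¹) ^ 2) * ‖d‖⁻¹) = (C * (2 * C)⁻¹) * (2 * C)⁻¹ *
          (‖d‖ * ‖d‖⁻¹) by ring, mul_inv_cancel₀ hd0.ne', mul_one]
        have h5 : C * (2 * C)⁻¹ ≤ 1 := by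
          rw [mul_inv_le_iff₀ hp0]; linarith
        have h6 : (0 : ℝ) < (2 * C)⁻¹ := by positivity
        nlinarith
  have hone : ‖T (b * a⁻¹)‖ = 1 := by
    have h2 : (2 * C)⁻¹ < 1 := inv_lt_one_of_one_lt₀ hp1'
    have h3 : ‖T (b * a⁻¹) - 1‖ < 1 := h1.trans_lt h2
    have h4 : T (b * a⁻¹) = 1 + (T (b * a⁻¹) - 1) := by ring
    rw [h4]
    have h5 : ‖(1 : ℚ_[p])‖ ≠ ‖T (b * a⁻¹) - 1‖ := by
      rw [norm_one]; exact h3.ne'
    rw [IsUltrametricDist.norm_add_eq_max_of_norm_ne_norm h5, norm_one, max_eq_left h3.le]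
  -- the eigenvalue equation
  have h6 : (c ^ N - 1) * T (b * a⁻¹) = T ((c ^ N • b - (γ ^ N) b) * a⁻¹) := by
    have h7 : T ((γ ^ N) b * a⁻¹) = T (b * a⁻¹) := by
      conv_lhs => rw [← hNa, ← map_mul]
      exact trace_gal _ _
    have h7' : (c ^ N • b - (γ ^ N) b) * a⁻¹ = c ^ N • (b * a⁻¹) - (γ ^ N) b * a⁻¹ := by
      rw [sub_mul, smul_mul_assoc]
    rw [h7', map_sub, h7, map_smul, smul_eq_mul]
    ring
  have h8 : ‖c ^ N • b - (γ ^ N) b‖ ≤ ‖d‖ * (((2 * C)⁻¹) ^ 2 * ‖c ^ N - 1‖) := by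
    rw [← PadicComplex.norm_extends]
    have h9 : ((c ^ N • b - (γ ^ N) b : PadicAlgCl p) : ℂ_[p]) =
        cpMap p (γ ^ N) (d - (b : ℂ_[p])) - algebraMap ℚ_[p] ℂ_[p] (c ^ N) * (d - (b : ℂ_[p])) := by
      have h9' : ((c ^ N • b - (γ ^ N) b : PadicAlgCl p) : ℂ_[p]) =
          ((c ^ N • b : PadicAlgCl p) : ℂ_[p]) - (((γ ^ N) b : PadicAlgCl p) : ℂ_[p]) := by
        push_cast
        ring
      rw [h9', coe_smul', map_sub, cpMap_pow_eigen hγ, cpMap_coe]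
      ring
    rw [h9]
    refine (nsub _ _).trans (max_le ?_ ?_)
    · rw [norm_cpMap]; exact hbd2
    · rw [norm_mul, norm_algebraMap', norm_pow, hnc, one_pow, one_mul]; exact hbd2
  have h10 : ‖c ^ N - 1‖ ≤ (2 * C)⁻¹ * ‖c ^ N - 1‖ := by
    have hmem : (c ^ N • b - (γ ^ N) b) * a⁻¹ ∈ Linf F0 :=
      mul_mem (sub_mem ((Linf F0).smul_mem hb) (gal_mem_Linf F0 _ hγN hb)) hainv
    calc ‖c ^ N - 1‖ = ‖(c ^ N - 1) * T (b * a⁻¹)‖ := by rw [norm_mul, hone, mul_one]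
      _ = ‖T ((c ^ N • b - (γ ^ N) b) * a⁻¹)‖ := by rw [h6]
      _ ≤ C * ‖(c ^ N • b - (γ ^ N) b) * a⁻¹‖ := hC _ hmem
      _ = C * (‖c ^ N • b - (γ ^ N) b‖ * ‖d‖⁻¹) := by rw [norm_mul, norm_inv, hna]
      _ ≤ C * ((‖d‖ * (((2 * C)⁻¹) ^ 2 * ‖c ^ N - 1‖)) * ‖d‖⁻¹) := by gcongr
      _ ≤ (2 * C)⁻¹ * ‖c ^ N - 1‖ := by
        rw [show C * ((‖d‖ * (((2 * C)⁻¹) ^ 2 * ‖c ^ N - 1‖)) * ‖d‖⁻¹) = (C * (2 * C)⁻¹) *
          ((2 * C)⁻¹ * ‖c ^ N - 1‖) * (‖d‖ * ‖d‖⁻¹) by ring, mul_inv_cancel₀ hd0.ne', mul_one]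
        have h5 : C * (2 * C)⁻¹ ≤ 1 := by
          rw [mul_inv_le_iff₀ hp0]; linarith
        have h6 : (0 : ℝ) < (2 * C)⁻¹ * ‖c ^ N - 1‖ := by positivity
        nlinarith
  have h2 : (2 * C)⁻¹ < 1 := inv_lt_one_of_one_lt₀ hp1'
  nlinarith

end Pool.Agent.U367.DR
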